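import Pool.Agent.H914R2.DDefs
import Pool.Agent.H914R2.KDefs
import Pool.Agent.H281R3.HT.Defs

/-!
# Lefschetz maps: definitions

A Lefschetz map `f : Y ⟶ X` for the divisor `D` on `X` is a morphism with `dim Y ≤ dim X` such that
`f_* 1` is a positive rational multiple of `D ^ (dim X - dim Y)` and `f^*` is surjective on the
cohomology of degree smaller than `dim Y`.
-/

open CategoryTheory AlgebraicGeometry

universe u v

namespace Pool.Agent.V7H2.HT

open Pool.Agent.H914 Pool.Agent.H914.VarClass Pool.Agent.H914.VarClass.Obj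
  Pool.Agent.H914.WeilCohomology Pool.Agent.H281R3.HT

variable {k : Type u} [Field k] {𝒱 : VarClass k} {ops : CycleOps 𝒱}

/-- The direct image of the fundamental cycle of `Y` under `f : Y ⟶ X` has the class of a positive
rational multiple of the cycle `D ^ (dim X - dim Y)`. -/
def PushesToMultiple (W : WeilCohomology.{u, v} ops) {X Y : 𝒱.Obj} (f : Y ⟶ X)
    (D : X.Cycles) : Prop :=
  ∃ c : ℚ, 0 < c ∧ W.cl X (ops.push f Y.V.fundCycle) =
    W.cl X (c • divPow ops D (X.dim - Y.dim) X.V.fundCycle)

/-- Every cohomology class of degree smaller than `dim Y` on `Y` is the pull-back of a class of the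
same degree on `X`. -/
def SurjBelow (W : WeilCohomology.{u, v} ops) {X Y : 𝒱.Obj} (f : Y ⟶ X) : Prop :=
  ∀ i < Y.dim, Set.SurjOn (W.map f) (W.gr X i) (W.gr Y i)

/-- The morphism `f : Y ⟶ X` is a Lefschetz map for the divisor `D` on `X`: the dimension of `Y` is
at most the one of `X`, the direct image of the fundamental class of `Y` is a positive rational
multiple of the class of `D ^ (dim X - dim Y)`, and every cohomology class of degree smaller than
`dim Y` on `Y` is the pull-back of a class on `X`. -/
structure IsLefschetzMap (W : WeilCohomology.{u, v} ops) {X Y : 𝒱.Obj} (f : Y ⟶ X)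
    (D : X.Cycles) : Prop where
  le : Y.dim ≤ X.dim
  pushes : PushesToMultiple W f D
  surjBelow : SurjBelow W f

/-- The sign condition of the standard conjecture of Hodge type in codimension `j`. -/
def HodgeTypeIn (W : WeilCohomology.{u, v} ops) (X : 𝒱.Obj) (D : X.Cycles) (j : ℕ) : Prop :=
  ∀ z, X.IsCyc j z → W.cl X (divPow ops D (X.dim - 2 * j + 1) z) = 0 → W.cl X z ≠ 0 →
    0 < (-1 : ℚ) ^ j * X.V.degCycle (ops.mul z (divPow ops D (X.dim - 2 * j) z))

/-- The self-intersection of every cycle of the middle codimension on `Y` whose class is not zero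
and whose direct image under `f` has the class zero has the sign `(-1) ^ (dim Y / 2)`. -/
def VanishingPositive (W : WeilCohomology.{u, v} ops) {X Y : 𝒱.Obj} (f : Y ⟶ X) : Prop :=
  ∀ j, 2 * j = Y.dim → ∀ z, Y.IsCyc j z → W.cl X (ops.push f z) = 0 → W.cl Y z ≠ 0 →
    0 < (-1 : ℚ) ^ j * Y.V.degCycle (ops.mul z z)

/-- The composites of Lefschetz maps: the morphism `f : Y ⟶ X` is the composite of a tower of
Lefschetz maps, each one for the pull-back of the divisor `D` on `X`. -/
inductive IsLefschetzTower (W : WeilCohomology.{u, v} ops) (X : 𝒱.Obj) (D : X.Cycles) :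
    ∀ Y : 𝒱.Obj, (Y ⟶ X) → Prop
  | base : IsLefschetzTower W X D X (𝟙 X)
  | step {Y Z : 𝒱.Obj} {f : Y ⟶ X} {g : Z ⟶ Y} : IsLefschetzTower W X D Y f →
      IsLefschetzMap W g (ops.pull f D) → IsLefschetzTower W X D Z (g ≫ f)

/-- The orbit of `v` under a set of maps. -/
def orbitOf {S : Type*} (Γ : Set (S → S)) (v : S) : Set S := {a | ∃ g ∈ Γ, g v = a}

/-- The vanishing classes of `f : Y ⟶ X`: the classes of the middle degree `dim Y` with direct image
zero. -/
def IsVanishing (W : WeilCohomology.{u, v} ops) {X Y : 𝒱.Obj} (f : Y ⟶ X) (v : W.H Y) : Prop :=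
  v ∈ W.gr Y Y.dim ⊓ LinearMap.ker (W.push f)

/-- The vanishing cohomology of `f : Y ⟶ X` has infinite monodromy: there is a set `Γ` of
transformations of the cohomology of `Y` such that the class of every algebraic cycle on `Y` has a
finite orbit under `Γ`, and every nonzero vanishing class has an infinite orbit. -/
def InfiniteMonodromy (W : WeilCohomology.{u, v} ops) {X Y : 𝒱.Obj} (f : Y ⟶ X) : Prop :=
  ∃ Γ : Set (W.H Y → W.H Y), (∀ j, ∀ a ∈ algClasses W Y j, (orbitOf Γ a).Finite) ∧
    ∀ v, IsVanishing W f v → v ≠ 0 → (orbitOf Γ v).Infinite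

/-- The standard conjecture of Hodge type for `X` and `D` in the codimensions `j ≤ n / 2`. -/
def HodgeTypeUpTo (W : WeilCohomology.{u, v} ops) (X : 𝒱.Obj) (D : X.Cycles) (n : ℕ) : Prop :=
  ∀ j, 2 * j ≤ n → HodgeTypeIn W X D j

/-- The transfer of the conjecture of Hodge type along `f : Y ⟶ X`: for `2 j < dim Y` it holds for
`Y` and `f^* D` in codimension `j` if and only if it does for `X` and `D`; the whole conjecture for
`Y` is equivalent to the one for `X` in the codimensions `j ≤ dim Y / 2` together with the
positivity for the vanishing algebraic classes; so, if the dimension of `Y` is odd or the vanishing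
cohomology has infinite monodromy, it follows from the one for `X`, and then homological and
numerical equivalence coincide on `Y`. -/
structure HodgeTransfer (W : WeilCohomology.{u, v} ops) {X Y : 𝒱.Obj} (f : Y ⟶ X)
    (D : X.Cycles) : Prop where
  below : ∀ j, 2 * j < Y.dim → (HodgeTypeIn W Y (ops.pull f D) j ↔ HodgeTypeIn W X D j)
  iff : HodgeType W Y (ops.pull f D) ↔ HodgeTypeUpTo W X D Y.dim ∧ VanishingPositive W f
  holds : HodgeTypeUpTo W X D Y.dim → Odd Y.dim ∨ InfiniteMonodromy W f →
    HodgeType W Y (ops.pull f D) ∧ HomEqNum W Y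

/-- The product of two morphisms. -/
noncomputable def prodMap {X X' Y Y' : 𝒱.Obj} (F : Y ⟶ X) (F' : Y' ⟶ X') :
    Y.prod Y' ⟶ X.prod X' :=
  Obj.lift (fst Y Y' ≫ F) (snd Y Y' ≫ F')

/-- The polarized variety `P` satisfies the hard Lefschetz theorem and the Lefschetz standard
conjecture, and its polarization is a divisor. -/
structure SatisfiesLefschetz (W : WeilCohomology.{u, v} ops) (P : Polarized 𝒱) : Prop where
  divisor : P.X.IsCyc 1 P.D
  hardLefschetz : HardLefschetz W P.X P.D
  lefschetzB : LefschetzB W P.X P.D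

/-- The products of Lefschetz maps to polarized varieties which satisfy the hard Lefschetz theorem
and the Lefschetz standard conjecture; the product of the targets carries the product
polarization. -/
inductive IsLefschetzProduct (W : WeilCohomology.{u, v} ops) :
    ∀ (P : Polarized 𝒱) (Y : 𝒱.Obj), (Y ⟶ P.X) → Prop
  | map {P : Polarized 𝒱} {Y : 𝒱.Obj} {F : Y ⟶ P.X} : SatisfiesLefschetz W P →
      IsLefschetzMap W F P.D → IsLefschetzProduct W P Y F
  | prod {P P' : Polarized 𝒱} {Y Y' : 𝒱.Obj} {F : Y ⟶ P.X} {F' : Y' ⟶ P'.X} :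
      IsLefschetzProduct W P Y F → IsLefschetzProduct W P' Y' F' →
      IsLefschetzProduct W (P.prod ops P') (Y.prod Y') (prodMap F F')

/-- The class of the cycle `z` on `Y` is the pull-back of a cohomology class on `X`. -/
def IsPulledBack (W : WeilCohomology.{u, v} ops) {X Y : 𝒱.Obj} (F : Y ⟶ X)
    (z : Y.Cycles) : Prop :=
  W.cl Y z ∈ Set.range (W.map F)

/-- The direct image of the cycle `z` on `Y` has class zero. -/
def IsKilled (W : WeilCohomology.{u, v} ops) {X Y : 𝒱.Obj} (F : Y ⟶ X)
    (z : Y.Cycles) : Prop :=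
  W.cl X (ops.push F z) = 0

/-- The standard conjecture of Hodge type for the cycles on `Y` with the property `T`. -/
def HodgeTypeWhere (W : WeilCohomology.{u, v} ops) (Y : 𝒱.Obj) (E : Y.Cycles)
    (T : Y.Cycles → Prop) : Prop :=
  ∀ j, 2 * j ≤ Y.dim → ∀ z, Y.IsCyc j z → T z →
    W.cl Y (divPow ops E (Y.dim - 2 * j + 1) z) = 0 → W.cl Y z ≠ 0 →
    0 < (-1 : ℚ) ^ j * Y.V.degCycle (ops.mul z (divPow ops E (Y.dim - 2 * j) z))

/-- The standard conjecture `D` for the cycles on `Y` with the property `T`. -/
def HomEqNumWhere (W : WeilCohomology.{u, v} ops) (Y : 𝒱.Obj) (T : Y.Cycles → Prop) : Prop :=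
  ∀ j ≤ Y.dim, ∀ z, Y.IsCyc j z → T z →
    (∀ w, Y.IsCyc (Y.dim - j) w → Y.V.degCycle (ops.mul z w) = 0) → W.cl Y z = 0

/-- Every cycle on `Y` whose direct image under `F : Y ⟶ X` has the class zero has the class
zero. -/
def KernelZero (W : WeilCohomology.{u, v} ops) {X Y : 𝒱.Obj} (F : Y ⟶ X) : Prop :=
  ∀ j z, Y.IsCyc j z → IsKilled W F z → W.cl Y z = 0

/-- The hard Lefschetz theorem, the Kunneth standard conjecture and the Lefschetz standard
conjecture hold for `Y` and the divisor `E`. -/
structure LefschetzConclusions (W : WeilCohomology.{u, v} ops) (Y : 𝒱.Obj) (E : Y.Cycles) :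
    Prop where
  hardLefschetz : HardLefschetz W Y E
  kunneth : KunnethStd W Y
  lefschetzB : LefschetzB W Y E

/-- The conjecture of Hodge type on `Y` in terms of the morphism `F : Y ⟶ X`: the conjectures of
Hodge type and `D` hold for all cycles on `Y` whose class is the pull-back of a cohomology class on
`X`; the whole conjecture of Hodge type for `Y` and `E` is equivalent to the sign condition for the
primitive cycles with direct image zero; and it implies the conjecture `D` for `Y`. In particular
both hold if all cycles with direct image zero have class zero. -/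
structure HodgeConclusions (W : WeilCohomology.{u, v} ops) {X Y : 𝒱.Obj} (F : Y ⟶ X)
    (E : Y.Cycles) : Prop where
  hodge_image : HodgeTypeWhere W Y E (IsPulledBack W F)
  num_image : HomEqNumWhere W Y (IsPulledBack W F)
  iff : HodgeType W Y E ↔ HodgeTypeWhere W Y E (IsKilled W F)
  num : HodgeType W Y E → HomEqNum W Y
  zero : KernelZero W F → HodgeType W Y E ∧ HomEqNum W Y

end Pool.Agent.V7H2.HT
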