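import Pool.Agent.H914R2.GBasic
import Pool.Agent.H914R2.DDefs
import Pool.Agent.V7H2.HT.Defs

/-!
# Lefschetz maps and the standard conjectures: basic transfer

A Lefschetz map `f : Y ⟶ X` for the divisor `D` on `X` is a morphism with `dim Y ≤ dim X` such that
`f_* 1` is a positive rational multiple of `D ^ (dim X - dim Y)` and `f^*` is surjective on the
cohomology of degree smaller than `dim Y`.
-/

open CategoryTheory AlgebraicGeometry Finset

universe u v

namespace Pool.Agent.V7H2.HT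

open Pool.Agent.H914 Pool.Agent.H914.VarClass Pool.Agent.H914.VarClass.Obj
  Pool.Agent.H914.WeilCohomology

variable {k : Type u} [Field k] {𝒱 : VarClass k} {ops : CycleOps 𝒱}

variable {W : WeilCohomology.{u, v} ops} {X Y Z : 𝒱.Obj}

lemma hodgeType_iff {D : X.Cycles} :
    HodgeType W X D ↔ ∀ j, 2 * j ≤ X.dim → HodgeTypeIn W X D j := Iff.rfl

lemma mulLeft_pow_apply (ξ : W.H X) (n : ℕ) (b : W.H X) :
    (LinearMap.mulLeft W.K ξ ^ n) b = ξ ^ n * b := by
  induction n with
  | zero => simp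
  | succ n ih => rw [pow_succ', Module.End.mul_apply, ih, LinearMap.mulLeft_apply, pow_succ',
      mul_assoc]

lemma xi_pow_mem {D : X.Cycles} (hD : X.IsCyc 1 D) (n : ℕ) : (W.cl X D) ^ n ∈ W.gr X (2 * n) := by
  induction n with
  | zero => simpa using W.one_mem X
  | succ n ih =>
    rw [pow_succ, show 2 * (n + 1) = 2 * n + 2 * 1 by ring]
    exact W.mul_mem ih (W.cl_mem hD)

lemma mul_xi_comm {D : X.Cycles} (hD : X.IsCyc 1 D) (n : ℕ) (b : W.H X) :
    (W.cl X D) ^ n * b = b * (W.cl X D) ^ n := W.even_comm (xi_pow_mem hD n) b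

lemma cl_divPow_fund (D : X.Cycles) (n : ℕ) :
    W.cl X (divPow ops D n X.V.fundCycle) = (W.cl X D) ^ n := by
  rw [cl_divPow, mulLeft_pow_apply, W.cl_fund, mul_one]

lemma pushesToMultiple_iff {f : Y ⟶ X} {D : X.Cycles} : PushesToMultiple W f D ↔
    ∃ c : ℚ, 0 < c ∧ W.push f 1 = (c : W.K) • (W.cl X D) ^ (X.dim - Y.dim) := by
  simp only [PushesToMultiple, W.cl_push, W.cl_fund, W.cl_smul, cl_divPow_fund]

lemma IsLefschetzMap.push_one {f : Y ⟶ X} {D : X.Cycles} (hf : IsLefschetzMap W f D) :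
    ∃ c : ℚ, 0 < c ∧ W.push f 1 = (c : W.K) • (W.cl X D) ^ (X.dim - Y.dim) :=
  pushesToMultiple_iff.1 hf.pushes

lemma IsLefschetzMap.surj {f : Y ⟶ X} {D : X.Cycles} (hf : IsLefschetzMap W f D) :
    ∀ i < Y.dim, ∀ b ∈ W.gr Y i, ∃ a ∈ W.gr X i, W.map f a = b :=
  fun i hi b hb => hf.surjBelow i hi hb

lemma IsLefschetzMap.of {f : Y ⟶ X} {D : X.Cycles} (h1 : Y.dim ≤ X.dim)
    (h2 : ∃ c : ℚ, 0 < c ∧ W.push f 1 = (c : W.K) • (W.cl X D) ^ (X.dim - Y.dim))
    (h3 : ∀ i < Y.dim, ∀ b ∈ W.gr Y i, ∃ a ∈ W.gr X i, W.map f a = b) : IsLefschetzMap W f D :=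
  ⟨h1, pushesToMultiple_iff.2 h2, fun i hi b hb => h3 i hi b hb⟩

namespace IsLefschetzMap

variable {f : Y ⟶ X} {D : X.Cycles} (hf : IsLefschetzMap W f D) (hD : X.IsCyc 1 D)

lemma cl_pull_D (f : Y ⟶ X) (D : X.Cycles) : W.cl Y (ops.pull f D) = W.map f (W.cl X D) :=
  W.cl_pull f D

lemma isCyc_pull (hD : X.IsCyc 1 D) : Y.IsCyc 1 (ops.pull f D) := ops.pull_mem f hD

include hf

/-- The positive rational number `c` with `f_* 1 = c D ^ (dim X - dim Y)`. -/
noncomputable def c : ℚ := hf.push_one.choose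

lemma c_pos : 0 < hf.c := hf.push_one.choose_spec.1

lemma c_ne : (hf.c : W.K) ≠ 0 := by
  have := hf.c_pos.ne'
  exact_mod_cast this

lemma push_fund : W.push f 1 = (hf.c : W.K) • (W.cl X D) ^ (X.dim - Y.dim) :=
  hf.push_one.choose_spec.2

/-- `f_* f^* b = c D ^ (dim X - dim Y) b`. -/
lemma push_map (b : W.H X) :
    W.push f (W.map f b) = (hf.c : W.K) • ((W.cl X D) ^ (X.dim - Y.dim) * b) := by
  have h1 := W.push_mul f 1 b
  rw [one_mul] at h1
  rw [h1, hf.push_fund, smul_mul_assoc]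

lemma tr_map (b : W.H X) :
    W.tr Y (W.map f b) = (hf.c : W.K) * W.tr X ((W.cl X D) ^ (X.dim - Y.dim) * b) := by
  have h1 := W.tr_push f 1 b
  rw [one_mul] at h1
  rw [← h1, hf.push_fund, smul_mul_assoc, map_smul, smul_eq_mul]

/-- `f_*` is injective in degrees larger than `dim Y`. -/
lemma push_inj {i : ℕ} (hi : Y.dim < i) {a : W.H Y} (ha : a ∈ W.gr Y i) (h0 : W.push f a = 0) :
    a = 0 := by
  by_cases hi2 : 2 * Y.dim < i
  · rw [W.gr_eq_bot Y i hi2] at ha
    exact (Submodule.mem_bot _).1 ha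
  apply W.nondeg
  intro y
  refine gr_induction (W.isInternal Y) (p := fun y => W.tr Y (a * y) = 0) ?_ ?_ y
  · intro j y hy
    by_cases hj : i + j = 2 * Y.dim
    · obtain ⟨x, -, rfl⟩ := hf.surj j (by omega) y hy
      rw [← W.tr_push, h0, zero_mul, map_zero]
    · exact W.tr_eq_zero (W.mul_mem ha hy) hj
  · intro y y' hy hy'
    rw [mul_add, map_add, hy, hy', add_zero]

include hD

/-- `f^*` is injective in degrees at most `dim Y`. -/
lemma map_inj (hHL : HardLefschetz W X D) {i : ℕ} (hi : i ≤ Y.dim) {a : W.H X}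
    (ha : a ∈ W.gr X i) (h0 : W.map f a = 0) : a = 0 := by
  have h1 := hf.push_map a
  rw [h0, map_zero] at h1
  have h2 : (W.cl X D) ^ (X.dim - Y.dim) * a = 0 :=
    (smul_eq_zero.1 h1.symm).resolve_left hf.c_ne
  have hle := hf.le
  refine (hHL i (by omega)).1 a ha ?_
  rw [mulLeft_pow_apply, show X.dim - i = (Y.dim - i) + (X.dim - Y.dim) by omega, pow_add, mul_assoc,
    h2, mul_zero]

/-- The hard Lefschetz theorem for `Y`. -/
theorem hardLefschetz (hHL : HardLefschetz W X D) : HardLefschetz W Y (ops.pull f D) := by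
  have hle := hf.le
  intro i hi
  constructor
  · intro a ha h0
    rcases hi.eq_or_lt with rfl | hi'
    · simpa using h0
    · obtain ⟨x, hx, rfl⟩ := hf.surj i hi' a ha
      rw [mulLeft_pow_apply, cl_pull_D, ← map_pow, ← map_mul] at h0
      have h1 := hf.push_map ((W.cl X D) ^ (Y.dim - i) * x)
      rw [h0, map_zero] at h1
      have h2 : (W.cl X D) ^ (X.dim - Y.dim) * ((W.cl X D) ^ (Y.dim - i) * x) = 0 :=
        (smul_eq_zero.1 h1.symm).resolve_left hf.c_ne
      rw [← mul_assoc, ← pow_add, show X.dim - Y.dim + (Y.dim - i) = X.dim - i by omega,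
        ← mulLeft_pow_apply] at h2
      rw [(hHL i (by omega)).1 x hx h2, map_zero]
  · intro b hb
    rcases hi.eq_or_lt with rfl | hi'
    · exact ⟨b, by rwa [show 2 * Y.dim - Y.dim = Y.dim by omega] at hb, by simp⟩
    · have h1 := W.push_mem f hb
      rw [show ((2 * Y.dim - i : ℕ) : ℤ) + 2 * ((X.dim : ℤ) - Y.dim) = ((2 * X.dim - i : ℕ) : ℤ) by
        omega, grZ_natCast] at h1
      obtain ⟨x, hx, hx'⟩ := (hHL i (by omega)).2 _ h1
      refine ⟨(hf.c : W.K)⁻¹ • W.map f x, Submodule.smul_mem _ _ (W.map_mem f hx), ?_⟩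
      rw [map_smul, mulLeft_pow_apply, cl_pull_D, ← map_pow, ← map_mul]
      rw [← sub_eq_zero]
      refine hf.push_inj (i := 2 * Y.dim - i) (by omega) ?_ ?_
      · refine Submodule.sub_mem _ (Submodule.smul_mem _ _ (W.map_mem f ?_)) hb
        have := W.mul_mem (xi_pow_mem (W := W) hD (Y.dim - i)) hx
        rwa [show 2 * (Y.dim - i) + i = 2 * Y.dim - i by omega] at this
      · rw [map_sub, map_smul, hf.push_map, smul_smul, inv_mul_cancel₀ hf.c_ne, one_smul,
          ← mul_assoc, ← pow_add, show X.dim - Y.dim + (Y.dim - i) = X.dim - i by omega,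
          ← mulLeft_pow_apply, hx', sub_self]

/-- The class of a cycle on `Y` of codimension `dim Y - j`, `2 j < dim Y`, is the product of
`D ^ (dim Y - 2 j)` and of the pull-back of the class of a cycle on `X`. -/
lemma exists_upper (hA : LefschetzA W X D) {j : ℕ} (hj : 2 * j < Y.dim) {z : Y.Cycles}
    (hz : Y.IsCyc (Y.dim - j) z) : ∃ x, X.IsCyc j x ∧
      W.cl Y z = (W.map f (W.cl X D)) ^ (Y.dim - 2 * j) * W.map f (W.cl X x) := by
  have hle := hf.le
  obtain ⟨x, hx, hx'⟩ := hA j (by omega) (ops.push f z) (ops.push_mem f hz (by omega))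
  rw [cl_divPow, W.cl_push, mulLeft_pow_apply] at hx'
  refine ⟨(hf.c)⁻¹ • x, hx.smul _, ?_⟩
  rw [W.cl_smul, map_smul, mul_smul_comm, ← map_pow, ← map_mul]
  rw [← sub_eq_zero]
  refine hf.push_inj (i := 2 * (Y.dim - j)) (by omega) ?_ ?_
  · refine Submodule.sub_mem _ (W.cl_mem hz) (Submodule.smul_mem _ _ (W.map_mem f ?_))
    have := W.mul_mem (xi_pow_mem (W := W) hD (Y.dim - 2 * j)) (W.cl_mem hx)
    rwa [show 2 * (Y.dim - 2 * j) + 2 * j = 2 * (Y.dim - j) by omega] at this
  · rw [map_sub, map_smul, hf.push_map, smul_smul, Rat.cast_inv, inv_mul_cancel₀ hf.c_ne, one_smul,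
      ← mul_assoc, ← pow_add, show X.dim - Y.dim + (Y.dim - 2 * j) = X.dim - 2 * j by omega, hx',
      sub_self]

/-- The conjecture `A` for `Y`. -/
theorem lefschetzA (hA : LefschetzA W X D) : LefschetzA W Y (ops.pull f D) := by
  intro j hj z hz
  rcases hj.eq_or_lt with h | h
  · refine ⟨z, ?_, ?_⟩
    · rwa [show Y.dim - j = j by omega] at hz
    · rw [cl_divPow, show Y.dim - 2 * j = 0 by omega, pow_zero, Module.End.one_apply]
  · obtain ⟨x, hx, hx'⟩ := hf.exists_upper hD hA h hz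
    exact ⟨ops.pull f x, ops.pull_mem f hx, by
      rw [cl_divPow, mulLeft_pow_apply, cl_pull_D, W.cl_pull, hx']⟩

/-- Below the middle codimension the algebraic classes on `Y` are the pull-backs of the algebraic
classes on `X`. -/
theorem exists_lower (hHL : HardLefschetz W X D) (hA : LefschetzA W X D) {j : ℕ}
    (hj : 2 * j < Y.dim) {z : Y.Cycles} (hz : Y.IsCyc j z) :
    ∃ x, X.IsCyc j x ∧ W.cl Y z = W.map f (W.cl X x) := by
  have h1 := divPow_mem (ops := ops) (isCyc_pull (ops := ops) (f := f) hD) (Y.dim - 2 * j) hz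
  rw [show j + (Y.dim - 2 * j) = Y.dim - j by omega] at h1
  obtain ⟨x, hx, hx'⟩ := hf.exists_upper hD hA hj h1
  refine ⟨x, hx, ?_⟩
  rw [← sub_eq_zero]
  refine (hf.hardLefschetz hD hHL (2 * j) (by omega)).1 _
    (Submodule.sub_mem _ (W.cl_mem hz) (W.map_mem f (W.cl_mem hx))) ?_
  rw [map_sub, ← cl_divPow, hx', mulLeft_pow_apply, cl_pull_D, sub_self]

/-- The intersection numbers on `Y` and on `X`. -/
lemma deg_eq {j : ℕ} (hj : 2 * j ≤ Y.dim) {z : Y.Cycles} (hz : Y.IsCyc j z) {x : X.Cycles}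
    (hx : X.IsCyc j x) (h : W.cl Y z = W.map f (W.cl X x)) :
    Y.V.degCycle (ops.mul z (divPow ops (ops.pull f D) (Y.dim - 2 * j) z)) =
      hf.c * X.V.degCycle (ops.mul x (divPow ops D (X.dim - 2 * j) x)) := by
  have hle := hf.le
  have h1 := ops.mul_mem hz (divPow_mem (ops := ops) (isCyc_pull (ops := ops) (f := f) hD)
    (Y.dim - 2 * j) hz)
  rw [show j + (j + (Y.dim - 2 * j)) = Y.dim by omega] at h1
  have h2 := ops.mul_mem hx (divPow_mem (ops := ops) hD (X.dim - 2 * j) hx)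
  rw [show j + (j + (X.dim - 2 * j)) = X.dim by omega] at h2
  have h3 := W.tr_cl h1
  have h4 := W.tr_cl h2
  rw [W.cl_mul, cl_divPow, mulLeft_pow_apply, cl_pull_D, h, ← map_pow, ← map_mul, ← map_mul,
    hf.tr_map] at h3
  rw [W.cl_mul, cl_divPow, mulLeft_pow_apply] at h4
  have h5 : (W.cl X D) ^ (X.dim - Y.dim) * (W.cl X x * ((W.cl X D) ^ (Y.dim - 2 * j) * W.cl X x)) =
      W.cl X x * ((W.cl X D) ^ (X.dim - 2 * j) * W.cl X x) := by
    rw [← mul_assoc, mul_xi_comm hD, mul_assoc, ← mul_assoc ((W.cl X D) ^ (X.dim - Y.dim)),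
      ← pow_add, show X.dim - Y.dim + (Y.dim - 2 * j) = X.dim - 2 * j by omega]
  rw [h5, h4] at h3
  exact_mod_cast h3.symm

/-- A class on `X` of degree `2 j ≤ dim Y` is primitive if and only if its pull-back is. -/
lemma prim_iff (hHL : HardLefschetz W X D) {j : ℕ} (hj : 2 * j ≤ Y.dim) {a : W.H X}
    (ha : a ∈ W.gr X (2 * j)) :
    (W.map f (W.cl X D)) ^ (Y.dim - 2 * j + 1) * W.map f a = 0 ↔
      (W.cl X D) ^ (X.dim - 2 * j + 1) * a = 0 := by
  have hle := hf.le
  have h1 := hf.push_map ((W.cl X D) ^ (Y.dim - 2 * j + 1) * a)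
  rw [map_mul, map_pow, ← mul_assoc ((W.cl X D) ^ (X.dim - Y.dim)), ← pow_add,
    show X.dim - Y.dim + (Y.dim - 2 * j + 1) = X.dim - 2 * j + 1 by omega] at h1
  constructor
  · intro h
    rw [h, map_zero] at h1
    exact (smul_eq_zero.1 h1.symm).resolve_left hf.c_ne
  · intro h
    rw [h, smul_zero] at h1
    refine hf.push_inj (i := 2 * (Y.dim - 2 * j + 1) + 2 * j) (by omega) ?_ h1
    rw [← map_pow, ← map_mul]
    exact W.map_mem f (W.mul_mem (xi_pow_mem hD _) ha)

/-- **Below the middle codimension the standard conjecture of Hodge type for `Y` follows from the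
one for `X`.** -/
theorem hodgeTypeIn (hHL : HardLefschetz W X D) (hA : LefschetzA W X D) {j : ℕ}
    (hj : 2 * j < Y.dim) (hH : HodgeTypeIn W X D j) : HodgeTypeIn W Y (ops.pull f D) j := by
  intro z hz hp h0
  obtain ⟨x, hx, hx'⟩ := hf.exists_lower hD hHL hA hj hz
  rw [hf.deg_eq hD (by omega) hz hx hx', mul_left_comm]
  refine mul_pos hf.c_pos (hH x hx ?_ ?_)
  · rw [cl_divPow, mulLeft_pow_apply]
    rw [cl_divPow, mulLeft_pow_apply, cl_pull_D, hx'] at hp
    exact (hf.prim_iff hD hHL hj.le (W.cl_mem hx)).1 hp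
  · intro h
    rw [hx', h, map_zero] at h0
    exact h0 rfl

/-- The converse holds up to the middle codimension. -/
theorem hodgeTypeIn_conv (hHL : HardLefschetz W X D) {j : ℕ}
    (hj : 2 * j ≤ Y.dim) (hH : HodgeTypeIn W Y (ops.pull f D) j) : HodgeTypeIn W X D j := by
  intro x hx hp h0
  have h1 := hH (ops.pull f x) (ops.pull_mem f hx) ?_ ?_
  · rw [hf.deg_eq hD hj (ops.pull_mem f hx) hx (W.cl_pull f x), mul_left_comm] at h1
    exact pos_of_mul_pos_right h1 hf.c_pos.le
  · rw [cl_divPow, mulLeft_pow_apply, cl_pull_D, W.cl_pull]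
    rw [cl_divPow, mulLeft_pow_apply] at hp
    exact (hf.prim_iff hD hHL hj (W.cl_mem hx)).2 hp
  · rw [W.cl_pull]
    intro h
    exact h0 (hf.map_inj hD hHL hj (W.cl_mem hx) h)

/-- Cycles of the middle codimension on `Y`: sums of a pull-back and a vanishing cycle. -/
lemma exists_middle (hA : LefschetzA W X D) {j : ℕ} (hj : 2 * j = Y.dim) {z : Y.Cycles}
    (hz : Y.IsCyc j z) : ∃ x v, X.IsCyc j x ∧ Y.IsCyc j v ∧ W.push f (W.cl Y v) = 0 ∧
      W.cl Y z = W.cl Y v + W.map f (W.cl X x) := by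
  have hle := hf.le
  obtain ⟨x, hx, hx'⟩ := hA j (by omega) (ops.push f z) (ops.push_mem f hz (by omega))
  rw [cl_divPow, W.cl_push, mulLeft_pow_apply, show X.dim - 2 * j = X.dim - Y.dim by omega] at hx'
  refine ⟨(hf.c)⁻¹ • x, z + (-(hf.c)⁻¹) • ops.pull f x, hx.smul _, hz.add ((ops.pull_mem f hx).smul _),
    ?_, ?_⟩
  · rw [map_add, W.cl_smul, W.cl_pull, map_add, map_smul, hf.push_map, hx', smul_smul]
    push_cast
    rw [neg_mul, inv_mul_cancel₀ hf.c_ne, neg_smul, one_smul, add_neg_cancel]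
  · rw [map_add, W.cl_smul, W.cl_smul, W.cl_pull, map_smul]
    push_cast
    rw [neg_smul, add_assoc, neg_add_cancel, add_zero]

/-- The product of a vanishing class and of a pull-back has trace zero. -/
lemma tr_van {v : W.H Y} (hv : W.push f v = 0) (x : W.H X) : W.tr Y (v * W.map f x) = 0 := by
  rw [← W.tr_push, hv, zero_mul, map_zero]

lemma van_prim {j : ℕ} (hj : 2 * j = Y.dim) {v : W.H Y} (hvg : v ∈ W.gr Y (2 * j))
    (hv : W.push f v = 0) : W.map f (W.cl X D) * v = 0 := by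
  refine hf.push_inj (i := 2 * 1 + 2 * j) (by omega)
    (W.mul_mem (W.map_mem f (W.cl_mem hD)) hvg) ?_
  rw [W.even_comm (W.map_mem f (W.cl_mem hD)), W.push_mul, hv, zero_mul]

/-- **In the middle codimension the standard conjecture of Hodge type for `Y` is equivalent to the
one for `X` and the positivity for the vanishing algebraic classes.** -/
theorem hodgeTypeIn_middle (hHL : HardLefschetz W X D) (hA : LefschetzA W X D) {j : ℕ}
    (hj : 2 * j = Y.dim) :
    HodgeTypeIn W Y (ops.pull f D) j ↔ (HodgeTypeIn W X D j ∧ VanishingPositive W f) := by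
  have hle := hf.le
  constructor
  · intro hH
    refine ⟨hf.hodgeTypeIn_conv hD hHL hj.le hH, ?_⟩
    intro i hi v hv hpv hv0
    rw [W.cl_push] at hpv
    obtain rfl : i = j := by omega
    have h1 := hH v hv ?_ hv0
    · rw [show Y.dim - 2 * i = 0 by omega] at h1
      exact h1
    · rw [cl_divPow, show Y.dim - 2 * i = 0 by omega, mulLeft_pow_apply, cl_pull_D, zero_add,
        pow_one]
      exact hf.van_prim hD hj (W.cl_mem hv) hpv
  · rintro ⟨hH, hV⟩ z hz hp h0
    obtain ⟨x, v, hx, hv, hpv, hzv⟩ := hf.exists_middle hD hA hj hz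
    rw [cl_divPow, show Y.dim - 2 * j = 0 by omega, mulLeft_pow_apply, cl_pull_D, zero_add,
      pow_one, hzv, mul_add, hf.van_prim hD hj (W.cl_mem hv) hpv, zero_add] at hp
    have hpx : (W.cl X D) ^ (X.dim - 2 * j + 1) * W.cl X x = 0 := by
      refine (hf.prim_iff hD hHL hj.le (W.cl_mem hx)).1 ?_
      rw [show Y.dim - 2 * j + 1 = 1 by omega, pow_one, hp]
    -- the intersection numbers
    have hzz := ops.mul_mem hz hz
    have hvv := ops.mul_mem hv hv
    have hpp := ops.pull_mem f hx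
    have hppp := ops.mul_mem hpp hpp
    rw [← two_mul, hj] at hzz hvv hppp
    have e1 := W.tr_cl hzz
    have e2 := W.tr_cl hvv
    have e3 := W.tr_cl hppp
    rw [W.cl_mul] at e1 e2 e3
    have e4 := hf.tr_van hD hpv (W.cl X x)
    have e5 : W.tr Y (W.map f (W.cl X x) * W.cl Y v) = 0 := by
      rw [W.even_comm (W.map_mem f (W.cl_mem hx)), e4]
    rw [hzv, add_mul, mul_add, mul_add, map_add, map_add, map_add, e4, e5, add_zero, zero_add, e2,
      ← W.cl_pull, e3] at e1
    have e6 : Y.V.degCycle (ops.mul z z) = Y.V.degCycle (ops.mul v v) +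
        Y.V.degCycle (ops.mul (ops.pull f x) (ops.pull f x)) := by exact_mod_cast e1.symm
    have e7 := hf.deg_eq hD hj.le hpp hx (W.cl_pull f x)
    rw [show Y.dim - 2 * j = 0 by omega] at e7
    have e8 : Y.V.degCycle (ops.mul z (divPow ops (ops.pull f D) (Y.dim - 2 * j) z)) =
        Y.V.degCycle (ops.mul z z) := by
      rw [show Y.dim - 2 * j = 0 by omega]; rfl
    have e9 : Y.V.degCycle (ops.mul (ops.pull f x) (ops.pull f x)) =
        hf.c * X.V.degCycle (ops.mul x (divPow ops D (X.dim - 2 * j) x)) := e7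
    rw [e8, e6, e9, mul_add, mul_left_comm]
    have hx0 : W.cl X x = 0 → X.V.degCycle (ops.mul x (divPow ops D (X.dim - 2 * j) x)) = 0 := by
      intro h
      have h2 := ops.mul_mem hx (divPow_mem (ops := ops) hD (X.dim - 2 * j) hx)
      rw [show j + (j + (X.dim - 2 * j)) = X.dim by omega] at h2
      have h3 := W.tr_cl h2
      rw [W.cl_mul, h, zero_mul, map_zero] at h3
      exact_mod_cast h3.symm
    have hv0 : W.cl Y v = 0 → Y.V.degCycle (ops.mul v v) = 0 := by
      intro h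
      rw [h, zero_mul, map_zero] at e2
      exact_mod_cast e2.symm
    have hpx' : W.cl X (divPow ops D (X.dim - 2 * j + 1) x) = 0 := by
      rw [cl_divPow, mulLeft_pow_apply, hpx]
    by_cases hx1 : W.cl X x = 0
    · have hv1 : W.cl Y v ≠ 0 := by
        intro h
        apply h0
        rw [hzv, h, hx1, map_zero, add_zero]
      rw [hx0 hx1, mul_zero, mul_zero, add_zero]
      exact hV j hj v hv (by rw [W.cl_push]; exact hpv) hv1
    · have h3 := mul_pos hf.c_pos (hH x hx hpx' hx1)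
      by_cases hv1 : W.cl Y v = 0
      · rw [hv0 hv1, mul_zero, zero_add]
        exact h3
      · exact add_pos (hV j hj v hv (by rw [W.cl_push]; exact hpv) hv1) h3

/-- **The standard conjecture of Hodge type for `Y`.** -/
theorem hodgeType (hHL : HardLefschetz W X D) (hA : LefschetzA W X D) (hH : HodgeType W X D) :
    HodgeType W Y (ops.pull f D) ↔ VanishingPositive W f := by
  have hle := hf.le
  constructor
  · intro h j hj
    exact ((hf.hodgeTypeIn_middle hD hHL hA hj).1 (h j hj.le)).2 j hj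
  · intro hV j hj
    rcases hj.eq_or_lt with h | h
    · exact (hf.hodgeTypeIn_middle hD hHL hA h).2 ⟨hH j (by omega), hV⟩
    · exact hf.hodgeTypeIn hD hHL hA h (hH j (by omega))

omit hf hD in
lemma vanishingPositive_of_odd {f : Y ⟶ X} (hodd : Odd Y.dim) : VanishingPositive W f := by
  intro j hj
  obtain ⟨m, hm⟩ := hodd
  omega

end IsLefschetzMap

end Pool.Agent.V7H2.HT
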