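import Pool.Agent.V7H2.HT.Num
import Pool.Agent.W552.Fr
import Pool.Agent.H914R2.PStep

/-!
# Morphisms compatible with the Lefschetz structures, and their products
-/

open CategoryTheory AlgebraicGeometry

universe u v

namespace Pool.Agent.V7H2.HT

open Pool.Agent.H914 Pool.Agent.H914.VarClass Pool.Agent.H914.VarClass.Obj
  Pool.Agent.H914.WeilCohomology Pool.Agent.W552 Pool.Agent.H281R3.HT

variable {k : Type u} [Field k] {𝒱 : VarClass k} {ops : CycleOps 𝒱}
  {W : WeilCohomology.{u, v} ops} {X X' Y Y' : 𝒱.Obj}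

/-- The hard Lefschetz theorem follows from the existence of the lowering operator. -/
theorem fr_hardLefschetz {D : X.Cycles} {f : Module.End W.K (W.H X)} (F : Fr W X D f) :
    HardLefschetz W X D := by
  intro i hi
  constructor
  · intro a ha h0
    have h1 : wt (W.isInternal X) X.dim a = -((X.dim - i : ℕ) : W.K) • a := by
      rw [Fr.wt_gr ha, Nat.cast_sub hi]
      congr 1
      ring
    have h2 : f a = 0 := F.sl2.f_eq_zero h1 (by
      rw [pow_succ', Module.End.mul_apply, h0, map_zero])
    have h3 := Sl2.f_pow_e_pow F.sl2 h2 h1 (k := X.dim - i) le_rfl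
    rw [h0, map_zero, Nat.sub_self, pow_zero, Module.End.one_apply] at h3
    refine (smul_eq_zero.1 h3.symm).resolve_left ?_
    have h4 : ((X.dim - i).factorial : W.K) ≠ 0 := by exact_mod_cast Nat.factorial_ne_zero _
    simp [h4]
  · intro b hb
    obtain ⟨z, hz, hzb⟩ := exists_preimage' F.sl2
      (P := fun d x => x = 0 ∨ ∃ c : ℕ, (c : ℤ) = X.dim + d ∧ x ∈ W.gr X c)
      (fun d => Or.inl rfl)
      (by
        rintro d x y (rfl | ⟨c, hc, hx⟩) (rfl | ⟨c', hc', hy⟩)
        · exact Or.inl (add_zero 0)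
        · rw [zero_add]; exact Or.inr ⟨c', hc', hy⟩
        · rw [add_zero]; exact Or.inr ⟨c, hc, hx⟩
        · obtain rfl : c = c' := by omega
          exact Or.inr ⟨c, hc, Submodule.add_mem _ hx hy⟩)
      (by
        rintro q d x (rfl | ⟨c, hc, hx⟩)
        · exact Or.inl (smul_zero _)
        · exact Or.inr ⟨c, hc, Submodule.smul_mem _ _ hx⟩)
      (by
        rintro d x (rfl | ⟨c, hc, hx⟩)
        · exact Or.inl (map_zero _)
        · exact Or.inr ⟨c + 2, by push_cast; omega, F.e_gr hx⟩)
      (by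
        rintro d x (rfl | ⟨c, hc, hx⟩)
        · exact Or.inl (map_zero _)
        · have h1 := F.f_gr hx
          by_cases h0 : c < 2
          · exact Or.inl (h1.2 h0)
          · exact Or.inr ⟨c - 2, by omega, h1.1 (c - 2) (by omega)⟩)
      (by
        rintro d x (rfl | ⟨c, hc, hx⟩)
        · rw [map_zero, smul_zero]
        · rw [Fr.wt_gr hx]
          congr 1
          have : ((c : ℤ) : W.K) = ((X.dim + d : ℤ) : W.K) := by rw [hc]
          push_cast at this ⊢
          linear_combination this)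
      (X.dim - i) (y := b) (Or.inr ⟨2 * X.dim - i, by omega, hb⟩)
    refine ⟨z, ?_, hzb⟩
    rcases hz with rfl | ⟨c, hc, hz⟩
    · exact Submodule.zero_mem _
    · obtain rfl : c = i := by omega
      exact hz

lemma fr_lefStr {D : X.Cycles} {f : Module.End W.K (W.H X)} (F : Fr W X D f) :
    LefStr (W.isInternal X) X.dim (LinearMap.mulLeft W.K (W.cl X D)) f :=
  ⟨mulLeft_isHom F.hD, W_hbd, fr_hardLefschetz F, F.sl2⟩

lemma map_prodMap (F : Y ⟶ X) (F' : Y' ⟶ X') (a : W.H X) (b : W.H X') :
    W.map (prodMap F F') (ext W a b) = ext W (W.map F a) (W.map F' b) := by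
  rw [ext, ext, map_mul, ← W.map_comp, ← W.map_comp, prodMap, Obj.lift_fst, Obj.lift_snd,
    W.map_comp, W.map_comp]

lemma ext_mul {i j : ℕ} {a a' : W.H X} {b b' : W.H X'} (hb : b ∈ W.gr X' j)
    (ha' : a' ∈ W.gr X i) : ext W a b * ext W a' b' =
      (-1 : W.K) ^ (j * i) • ext W (a * a') (b * b') := tmul_mul hb ha'

lemma tr_ext' (a : W.H X) (b : W.H X') : W.tr (X.prod X') (ext W a b) = W.tr X a * W.tr X' b :=
  W.tr_prod a b

lemma push_prodMap (F : Y ⟶ X) (F' : Y' ⟶ X') (a : W.H Y) (b : W.H Y') :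
    W.push (prodMap F F') (ext W a b) = ext W (W.push F a) (W.push F' b) := by
  refine gr_induction (W.isInternal Y') (p := fun b => W.push (prodMap F F') (ext W a b) =
    ext W (W.push F a) (W.push F' b)) ?_ ?_ b
  swap
  · intro b c hb hc
    rw [show ext W a (b + c) = ext W a b + ext W a c by simp only [ext, map_add, mul_add],
      map_add, hb, hc, map_add]
    simp only [ext, map_add, mul_add]
  intro j b hb
  apply W.tr_ext
  intro c
  refine W.kunneth_induction (p := fun c => W.tr (X.prod X')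
    (W.push (prodMap F F') (ext W a b) * c) =
      W.tr (X.prod X') (ext W (W.push F a) (W.push F' b) * c)) ?_ ?_ c
  · intro c c' hc hc'
    rw [mul_add, map_add, hc, hc', mul_add, map_add]
  intro l m x hx y hy
  change W.tr (X.prod X') (W.push (prodMap F F') (ext W a b) * ext W x y) =
    W.tr (X.prod X') (ext W (W.push F a) (W.push F' b) * ext W x y)
  rw [W.tr_push, map_prodMap, ext_mul hb (W.map_mem F hx), map_smul, tr_ext', smul_eq_mul]
  have h1 := W.push_mem F' hb
  by_cases hneg : (j : ℤ) + 2 * ((X'.dim : ℤ) - Y'.dim) < 0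
  · rw [grZ_of_neg hneg] at h1
    have h0 : W.push F' b = 0 := (Submodule.mem_bot _).1 h1
    have h2 : W.tr Y' (b * W.map F' y) = 0 := by rw [← W.tr_push, h0, zero_mul, map_zero]
    rw [h0, h2, mul_zero, mul_zero]
    simp [ext]
  · obtain ⟨r, hr⟩ := Int.eq_ofNat_of_zero_le (not_lt.1 hneg)
    rw [hr] at h1
    have h1' : W.push F' b ∈ W.gr X' r := by
      have h1'' : W.push F' b ∈ grZ (W.gr X') (r : ℤ) := h1
      rwa [grZ_natCast] at h1''
    rw [ext_mul h1' hx, map_smul, tr_ext', smul_eq_mul, W.tr_push, W.tr_push]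
    congr 1
    have h3 : (-1 : W.K) ^ (j * l) * (-1) ^ (r * l) = 1 := by
      rw [← pow_add]
      apply Even.neg_one_pow
      have h4 : Even (j + r) := by
        have h5 : (r : ℤ) = j + 2 * ((X'.dim : ℤ) - Y'.dim) := hr.symm
        have h6 : ((j + r : ℕ) : ℤ) = 2 * (j + ((X'.dim : ℤ) - Y'.dim)) := by
          push_cast; rw [h5]; ring
        have h7 : Even ((j + r : ℕ) : ℤ) := ⟨(j : ℤ) + ((X'.dim : ℤ) - Y'.dim), by rw [h6]; ring⟩
        exact_mod_cast h7
      rw [← add_mul]
      exact h4.mul_right l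
    have h4 : (-1 : W.K) ^ (r * l) * (-1) ^ (r * l) = 1 := by rw [← mul_pow]; simp
    calc (-1 : W.K) ^ (j * l) = (-1 : W.K) ^ (j * l) * ((-1 : W.K) ^ (r * l) * (-1) ^ (r * l)) := by
          rw [h4, mul_one]
      _ = _ := by rw [← mul_assoc, h3, one_mul]

/-- A morphism compatible with the Lefschetz structures of `X` and `Y`. -/
structure GoodMap (W : WeilCohomology.{u, v} ops) {X Y : 𝒱.Obj} (F : Y ⟶ X) (D : X.Cycles)
    (f : Module.End W.K (W.H X)) (E : Y.Cycles) (g : Module.End W.K (W.H Y)) {ι : Type}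
    [Fintype ι] (Q : ι → Module.End W.K (W.H X)) (c : ι → ℚ) (Θ : Module.End W.K (W.H X)) :
    Prop where
  frX : Fr W X D f
  frY : Fr W Y E g
  clE : W.cl Y E = W.map F (W.cl X D)
  aop : ∀ s, AOp W X X (Q s)
  nonneg : ∀ s, 0 ≤ c s
  zero : ∀ s, c s = 0 → ∀ a, W.map F (Q s a) = 0
  sum : ∀ a, ∑ s, Q s a = a
  form : ∀ a b, bf W Y E g (W.map F a) (W.map F b) =
    ∑ s, (c s : W.K) * bf W X D f (Q s a) (Q s b)
  theta : AOp W X X Θ
  theta_map : ∀ a, W.map F (Θ (W.push F (W.map F a))) = W.map F a
  theta_push : ∀ y, W.push F (W.map F (Θ (W.push F y))) = W.push F y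
  star : ∀ a, ∃ u, st W Y E g (W.map F a) = W.map F u

lemma st_add {D : X.Cycles} {f : Module.End W.K (W.H X)} (a b : W.H X) :
    st W X D f (a + b) = st W X D f a + st W X D f b := map_add _ _ _

/-- The star operator on an external product. -/
lemma st_ext {D : X.Cycles} {f : Module.End W.K (W.H X)} (F : Fr W X D f) {E : X'.Cycles}
    {g : Module.End W.K (W.H X')} (G : Fr W X' E g) {i j : ℕ} {a : W.H X} (ha : a ∈ W.gr X i)
    {b : W.H X'} (hb : b ∈ W.gr X' j) :
    st W (X.prod X') (ops.pull (fst X X') D + ops.pull (snd X X') E) (extSum W f g) (ext W a b) =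
      (-1 : W.K) ^ (i * j) • ext W (st W X D f a) (st W X' E g b) := by
  have hmem : ext W a b ∈ W.gr (X.prod X') (i + j) := W.mul_mem (W.map_mem _ ha) (W.map_mem _ hb)
  have h1 : wop W (X.prod X') (ops.pull (fst X X') D + ops.pull (snd X X') E) (extSum W f g)
      (ext W a b) = ext W (wop W X D f a) (wop W X' E g b) := wop_prod F.sl2 G.sl2 G.hD a b
  rw [st_apply hmem, h1, st_apply ha, st_apply hb, sg_add]
  simp only [ext, map_smul, smul_mul_assoc, mul_smul_comm, smul_smul]
  congr 1
  push_cast
  ring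

/-- **Products of good morphisms.** -/
theorem GoodMap.prod {F : Y ⟶ X} {D : X.Cycles} {f : Module.End W.K (W.H X)} {E : Y.Cycles}
    {g : Module.End W.K (W.H Y)} {ι : Type} [Fintype ι] {Q : ι → Module.End W.K (W.H X)}
    {c : ι → ℚ} {Θ : Module.End W.K (W.H X)} (h : GoodMap W F D f E g Q c Θ)
    {F' : Y' ⟶ X'} {D' : X'.Cycles} {f' : Module.End W.K (W.H X')} {E' : Y'.Cycles}
    {g' : Module.End W.K (W.H Y')} {ι' : Type} [Fintype ι'] {Q' : ι' → Module.End W.K (W.H X')}
    {c' : ι' → ℚ} {Θ' : Module.End W.K (W.H X')} (h' : GoodMap W F' D' f' E' g' Q' c' Θ') :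
    GoodMap W (prodMap F F') (ops.pull (fst X X') D + ops.pull (snd X X') D') (extSum W f f')
      (ops.pull (fst Y Y') E + ops.pull (snd Y Y') E') (extSum W g g')
      (fun s : ι × ι' => extOp W (Q s.1) (Q' s.2)) (fun s => c s.1 * c' s.2)
      (extOp W Θ Θ') where
  frX := h.frX.prod h'.frX
  frY := h.frY.prod h'.frY
  clE := by
    rw [map_add, map_add, map_add, W.cl_pull, W.cl_pull, W.cl_pull, W.cl_pull, h.clE, h'.clE,
      ← W.map_comp, ← W.map_comp, ← W.map_comp, ← W.map_comp, prodMap, Obj.lift_fst,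
      Obj.lift_snd]
  aop s := (h.aop s.1).ext (h'.aop s.2)
  nonneg s := mul_nonneg (h.nonneg _) (h'.nonneg _)
  zero s hs a := by
    refine W.kunneth_induction (p := fun a => W.map (prodMap F F')
      (extOp W (Q s.1) (Q' s.2) a) = 0) ?_ ?_ a
    · intro a b ha hb
      rw [map_add, map_add, ha, hb, add_zero]
    · intro i j a _ b _
      rw [extOp_tmul]
      change W.map (prodMap F F') (ext W (Q s.1 a) (Q' s.2 b)) = 0
      rw [map_prodMap]
      rcases mul_eq_zero.1 hs with h1 | h1
      · rw [h.zero _ h1]; simp [ext]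
      · rw [h'.zero _ h1]; simp [ext]
  sum a := by
    refine W.kunneth_induction (p := fun a => ∑ s : ι × ι', extOp W (Q s.1) (Q' s.2) a = a)
      ?_ ?_ a
    · intro a b ha hb
      simp only [map_add, Finset.sum_add_distrib]
      rw [ha, hb]
    · intro i j a _ b _
      simp only [extOp_tmul]
      rw [Fintype.sum_prod_type]
      simp only
      calc ∑ x, ∑ y, W.map (fst X X') (Q x a) * W.map (snd X X') (Q' y b)
          = ∑ x, W.map (fst X X') (Q x a) * W.map (snd X X') b := by
            apply Finset.sum_congr rfl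
            intro x _
            rw [← Finset.mul_sum, ← map_sum, h'.sum]
        _ = _ := by rw [← Finset.sum_mul, ← map_sum, h.sum]
  form a b := by
    refine W.kunneth_induction (p := fun a => bf W (Y.prod Y')
      (ops.pull (fst Y Y') E + ops.pull (snd Y Y') E') (extSum W g g')
      (W.map (prodMap F F') a) (W.map (prodMap F F') b) =
      ∑ s : ι × ι', ((c s.1 * c' s.2 : ℚ) : W.K) * bf W (X.prod X')
        (ops.pull (fst X X') D + ops.pull (snd X X') D') (extSum W f f')
        (extOp W (Q s.1) (Q' s.2) a) (extOp W (Q s.1) (Q' s.2) b)) ?_ ?_ a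
    · intro a a' ha ha'
      simp only [map_add, LinearMap.add_apply, mul_add, Finset.sum_add_distrib]
      rw [ha, ha']
    intro i j a _ a' _
    refine W.kunneth_induction (p := fun b => bf W (Y.prod Y')
      (ops.pull (fst Y Y') E + ops.pull (snd Y Y') E') (extSum W g g')
      (W.map (prodMap F F') (W.map (fst X X') a * W.map (snd X X') a'))
      (W.map (prodMap F F') b) =
      ∑ s : ι × ι', ((c s.1 * c' s.2 : ℚ) : W.K) * bf W (X.prod X')
        (ops.pull (fst X X') D + ops.pull (snd X X') D') (extSum W f f')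
        (extOp W (Q s.1) (Q' s.2) (W.map (fst X X') a * W.map (snd X X') a'))
        (extOp W (Q s.1) (Q' s.2) b)) ?_ ?_ b
    · intro b b' hb hb'
      simp only [map_add, mul_add, Finset.sum_add_distrib]
      rw [hb, hb']
    intro i' j' b _ b' _
    simp only [extOp_tmul]
    change bf W (Y.prod Y')
      (ops.pull (fst Y Y') E + ops.pull (snd Y Y') E') (extSum W g g')
      (W.map (prodMap F F') (ext W a a')) (W.map (prodMap F F') (ext W b b')) =
      ∑ s : ι × ι', ((c s.1 * c' s.2 : ℚ) : W.K) * bf W (X.prod X')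
        (ops.pull (fst X X') D + ops.pull (snd X X') D') (extSum W f f')
        (ext W (Q s.1 a) (Q' s.2 a')) (ext W (Q s.1 b) (Q' s.2 b'))
    rw [map_prodMap, map_prodMap, h.frY.bf_ext h'.frY, h.form, h'.form, Finset.sum_mul_sum,
      Fintype.sum_prod_type]
    apply Finset.sum_congr rfl
    intro x _
    apply Finset.sum_congr rfl
    intro y _
    rw [h.frX.bf_ext h'.frX]
    push_cast
    ring
  theta := h.theta.ext h'.theta
  theta_map a := by
    refine W.kunneth_induction (p := fun a => W.map (prodMap F F')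
      (extOp W Θ Θ' (W.push (prodMap F F') (W.map (prodMap F F') a))) =
      W.map (prodMap F F') a) ?_ ?_ a
    · intro a b ha hb
      simp only [map_add]
      rw [ha, hb]
    · intro i j a _ b _
      change W.map (prodMap F F') (extOp W Θ Θ' (W.push (prodMap F F')
        (W.map (prodMap F F') (ext W a b)))) = W.map (prodMap F F') (ext W a b)
      rw [map_prodMap, push_prodMap, ext, extOp_tmul]
      change W.map (prodMap F F') (ext W _ _) = _
      rw [map_prodMap, h.theta_map, h'.theta_map]
  theta_push y := by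
    refine W.kunneth_induction (p := fun y => W.push (prodMap F F') (W.map (prodMap F F')
      (extOp W Θ Θ' (W.push (prodMap F F') y))) = W.push (prodMap F F') y) ?_ ?_ y
    · intro a b ha hb
      simp only [map_add]
      rw [ha, hb]
    · intro i j a _ b _
      change W.push (prodMap F F') (W.map (prodMap F F') (extOp W Θ Θ'
        (W.push (prodMap F F') (ext W a b)))) = W.push (prodMap F F') (ext W a b)
      rw [push_prodMap, ext, extOp_tmul]
      change W.push (prodMap F F') (W.map (prodMap F F') (ext W _ _)) = _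
      rw [map_prodMap, push_prodMap, h.theta_push, h'.theta_push]
      rfl
  star a := by
    refine W.kunneth_induction (p := fun a => ∃ u, st W (Y.prod Y')
      (ops.pull (fst Y Y') E + ops.pull (snd Y Y') E') (extSum W g g')
      (W.map (prodMap F F') a) = W.map (prodMap F F') u) ?_ ?_ a
    · rintro a b ⟨u, hu⟩ ⟨v, hv⟩
      exact ⟨u + v, by rw [map_add, map_add, hu, hv, map_add]⟩
    · intro i j a ha b hb
      obtain ⟨u, hu⟩ := h.star a
      obtain ⟨v, hv⟩ := h'.star b
      refine ⟨(-1 : W.K) ^ (i * j) • ext W u v, ?_⟩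
      change st W (Y.prod Y') _ _ (W.map (prodMap F F') (ext W a b)) = _
      rw [map_prodMap, st_ext h.frY h'.frY (W.map_mem F ha) (W.map_mem F' hb), hu, hv, map_smul,
        map_prodMap]

end Pool.Agent.V7H2.HT
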