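import Pool.Agent.V7H2.HT.Good
import Pool.Agent.W552.TautOps
import Pool.Agent.W552.Main

/-!
# Lefschetz maps are compatible with the Lefschetz structures
-/

open CategoryTheory AlgebraicGeometry

universe u v

namespace Pool.Agent.V7H2.HT

open Pool.Agent.H914 Pool.Agent.H914.VarClass Pool.Agent.H914.VarClass.Obj
  Pool.Agent.H914.WeilCohomology Pool.Agent.W552 Pool.Agent.H281R3.HT

variable {k : Type u} [Field k] {𝒱 : VarClass k} {ops : CycleOps 𝒱}
  {W : WeilCohomology.{u, v} ops} {X Y : 𝒱.Obj} {F : Y ⟶ X} {D : X.Cycles}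

/-- The constants. -/
noncomputable def cst (c : ℚ) (N d : ℕ) (s : Fin (N + 1) × Fin (N + 1)) : ℚ :=
  if (s.1 : ℕ) + s.2 ≤ d then
    c * (((N - s.1 - s.2).factorial : ℚ) * ((d - s.1 - s.2).factorial : ℚ)⁻¹) else 0

/-- The projectors. -/
noncomputable def prj (W : WeilCohomology.{u, v} ops) (X : 𝒱.Obj) (D : X.Cycles)
    (Φ : Module.End W.K (W.H X)) (s : Fin (X.dim + 1) × Fin (X.dim + 1)) :
    Module.End W.K (W.H X) :=
  (LinearMap.mulLeft W.K (W.cl X D)) ^ (s.2 : ℕ) *
    rib (W.isInternal X) (LinearMap.mulLeft W.K (W.cl X D)) Φ s.1 s.2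

/-- The inverse operator. -/
noncomputable def tht (W : WeilCohomology.{u, v} ops) (X : 𝒱.Obj) (D : X.Cycles)
    (Φ : Module.End W.K (W.H X)) (c : ℚ) (d : ℕ) : Module.End W.K (W.H X) :=
  ∑ s : Fin (X.dim + 1) × Fin (X.dim + 1), if (s.1 : ℕ) + s.2 ≤ d then
    ((c⁻¹ : ℚ) : W.K) • ((LinearMap.mulLeft W.K (W.cl X D)) ^ (s.2 : ℕ) *
      rib (W.isInternal X) (LinearMap.mulLeft W.K (W.cl X D)) Φ s.1 (s.2 + (X.dim - d))) else 0

section

variable {f Φ : Module.End W.K (W.H X)}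
  (t : LefStr (W.isInternal X) X.dim (LinearMap.mulLeft W.K (W.cl X D)) f)
  (hΦ : IsLam (W.gr X) X.dim (LinearMap.mulLeft W.K (W.cl X D)) Φ)

include t hΦ

lemma prj_apply {i : ℕ} (hi : i ≤ X.dim) {p : W.H X} (hp : p ∈ W.gr X i)
    (hprim : ((LinearMap.mulLeft W.K (W.cl X D)) ^ (X.dim - i + 1)) p = 0) {b : ℕ}
    (hb : b ≤ X.dim - i) (s : Fin (X.dim + 1) × Fin (X.dim + 1)) :
    prj W X D Φ s (((LinearMap.mulLeft W.K (W.cl X D)) ^ b) p) =
      if (s.1 : ℕ) = i ∧ b = s.2 then ((LinearMap.mulLeft W.K (W.cl X D)) ^ b) p else 0 := by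
  rw [prj, Module.End.mul_apply, rib_apply t hΦ hi hp hprim hb]
  split_ifs with h
  · rw [h.2]
  · rw [map_zero]

lemma tht_apply {c : ℚ} {d : ℕ} (hd : d ≤ X.dim) {i : ℕ} (hi : i ≤ X.dim)
    {p : W.H X} (hp : p ∈ W.gr X i)
    (hprim : ((LinearMap.mulLeft W.K (W.cl X D)) ^ (X.dim - i + 1)) p = 0) {b : ℕ}
    (hb : i + b ≤ d) :
    tht W X D Φ c d (((LinearMap.mulLeft W.K (W.cl X D)) ^ (b + (X.dim - d))) p) =
      ((c⁻¹ : ℚ) : W.K) • ((LinearMap.mulLeft W.K (W.cl X D)) ^ b) p := by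
  rw [tht, LinearMap.sum_apply, Finset.sum_eq_single (⟨i, by omega⟩, ⟨b, by omega⟩)]
  · rw [if_pos hb, LinearMap.smul_apply, Module.End.mul_apply,
      rib_apply t hΦ hi hp hprim (by omega), if_pos ⟨rfl, rfl⟩]
  · intro s _ hs
    split_ifs with h
    · rw [LinearMap.smul_apply, Module.End.mul_apply, rib_apply t hΦ hi hp hprim (by omega),
        if_neg, map_zero, smul_zero]
      rintro ⟨h1, h2⟩
      apply hs
      apply Prod.ext
      · exact Fin.ext h1
      · exact Fin.ext (by simp only; omega)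
    · rfl
  · intro h; exact absurd (Finset.mem_univ _) h

end

lemma pow_mul_apply (ξ : W.H X) (m n : ℕ) (p : W.H X) :
    ξ ^ m * ((LinearMap.mulLeft W.K ξ) ^ n) p = ((LinearMap.mulLeft W.K ξ) ^ (m + n)) p := by
  rw [mulLeft_pow_apply, mulLeft_pow_apply, ← mul_assoc, pow_add]

/-- Orthogonality of the Lefschetz components. -/
lemma tr_orth (hD : X.IsCyc 1 D) {i i' b b' : ℕ} (hi : i ≤ X.dim) (hi' : i' ≤ X.dim)
    {p p' : W.H X} (hp : p ∈ W.gr X i) (hp' : p' ∈ W.gr X i')
    (hprim : (W.cl X D) ^ (X.dim - i + 1) * p = 0)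
    (hprim' : (W.cl X D) ^ (X.dim - i' + 1) * p' = 0) (hb' : b' ≤ X.dim - i')
    (hne : ¬(i = i' ∧ b = b')) :
    W.tr X ((W.cl X D) ^ b * p * ((W.cl X D) ^ (X.dim - i' - b') * p')) = 0 := by
  have hx : ∀ n, (W.cl X D) ^ n ∈ W.gr X (2 * n) := xi_pow_mem hD
  have hgt : ∀ {j : ℕ} {q : W.H X} (_ : (W.cl X D) ^ (X.dim - j + 1) * q = 0) {m : ℕ}
      (_ : X.dim - j < m), (W.cl X D) ^ m * q = 0 := by
    intro j q hq m hm
    obtain ⟨r, rfl⟩ := Nat.exists_eq_add_of_lt hm
    rw [show X.dim - j + r + 1 = r + (X.dim - j + 1) by ring, pow_add, mul_assoc, hq, mul_zero]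
  by_cases hdeg : (2 * b + i) + (2 * (X.dim - i' - b') + i') = 2 * X.dim
  · rcases lt_trichotomy i i' with h | h | h
    · have h1 : (W.cl X D) ^ b * p * ((W.cl X D) ^ (X.dim - i' - b') * p') =
          p * ((W.cl X D) ^ (b + (X.dim - i' - b')) * p') := by
        rw [mul_xi_comm hD b p, mul_assoc, ← mul_assoc ((W.cl X D) ^ b), ← pow_add]
      rw [h1, hgt hprim' (by omega), mul_zero, map_zero]
    · exact absurd ⟨h, by omega⟩ hne
    · have h1 : (W.cl X D) ^ b * p * ((W.cl X D) ^ (X.dim - i' - b') * p') =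
          ((W.cl X D) ^ (b + (X.dim - i' - b')) * p) * p' := by
        rw [← mul_assoc, mul_assoc ((W.cl X D) ^ b), ← mul_xi_comm hD _ p, ← mul_assoc,
          ← pow_add]
      rw [h1, hgt hprim (by omega), zero_mul, map_zero]
  · exact W.tr_eq_zero (W.mul_mem (W.mul_mem (hx _) hp) (W.mul_mem (hx _) hp')) hdeg

namespace IsLefschetzMap

variable (hf : IsLefschetzMap W F D) (hD : X.IsCyc 1 D)

include hf hD

/-- The pull-back of `D ^ b p`, `p` primitive of degree `i`, vanishes if `i + b > dim Y`. -/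
lemma map_eq_zero {i b : ℕ} (hi : i ≤ X.dim) (hib : Y.dim < i + b) {p : W.H X}
    (hp : p ∈ W.gr X i) (hprim : (W.cl X D) ^ (X.dim - i + 1) * p = 0) :
    W.map F ((W.cl X D) ^ b * p) = 0 := by
  have hle := hf.le
  refine hf.push_inj (i := 2 * b + i) (by omega)
    (W.map_mem F (W.mul_mem (xi_pow_mem hD b) hp)) ?_
  rw [hf.push_map, ← mul_assoc, ← pow_add]
  rw [show X.dim - Y.dim + b = (X.dim - Y.dim + b - (X.dim - i + 1)) + (X.dim - i + 1) by omega,
    pow_add, mul_assoc, hprim, mul_zero, smul_zero]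

/-- Every class on `Y` is the sum of a pull-back and a class with direct image zero. -/
lemma exists_decomp (hHL : HardLefschetz W X D) (y : W.H Y) :
    ∃ a v, y = W.map F a + v ∧ W.push F v = 0 := by
  have hle := hf.le
  refine gr_induction (W.isInternal Y) (p := fun y => ∃ a v, y = W.map F a + v ∧
    W.push F v = 0) ?_ ?_ y
  · intro i y hy
    rcases lt_trichotomy i Y.dim with h | h | h
    · obtain ⟨x, -, rfl⟩ := hf.surj i h y hy
      exact ⟨x, 0, by rw [add_zero], map_zero _⟩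
    · subst h
      have h1 := W.push_mem F hy
      rw [show ((Y.dim : ℕ) : ℤ) + 2 * ((X.dim : ℤ) - Y.dim) = ((2 * X.dim - Y.dim : ℕ) : ℤ) by
        omega, grZ_natCast] at h1
      obtain ⟨x, hx, hx'⟩ := (hHL Y.dim hle).2 _ h1
      refine ⟨(hf.c : W.K)⁻¹ • x, y - W.map F ((hf.c : W.K)⁻¹ • x), by abel, ?_⟩
      rw [map_sub, hf.push_map, mul_smul_comm, smul_smul, mul_inv_cancel₀ hf.c_ne, one_smul,
        ← mulLeft_pow_apply, hx', sub_self]
    · by_cases h2 : 2 * Y.dim < i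
      · rw [W.gr_eq_bot Y i h2] at hy
        rw [(Submodule.mem_bot _).1 hy]
        exact ⟨0, 0, by rw [map_zero, add_zero], map_zero _⟩
      · obtain ⟨z, hz, hz'⟩ := (hf.hardLefschetz hD hHL (2 * Y.dim - i) (by omega)).2 y
          (by rwa [show 2 * Y.dim - (2 * Y.dim - i) = i by omega])
        obtain ⟨x, -, rfl⟩ := hf.surj (2 * Y.dim - i) (by omega) z hz
        rw [mulLeft_pow_apply, cl_pull_D, ← map_pow, ← map_mul] at hz'
        exact ⟨_, 0, by rw [add_zero, hz'], map_zero _⟩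
  · rintro y y' ⟨a, v, h1, h2⟩ ⟨a', v', h1', h2'⟩
    exact ⟨a + a', v + v', by rw [h1, h1', map_add]; abel, by rw [map_add, h2, h2', add_zero]⟩

end IsLefschetzMap

section Base

variable (hf : IsLefschetzMap W F D) (hD : X.IsCyc 1 D) (hHL : HardLefschetz W X D)
  {f Φ : Module.End W.K (W.H X)} {g : Module.End W.K (W.H Y)} (hX : Fr W X D f)
  (hY : Fr W Y (ops.pull F D) g)
  (hΦ : IsLam (W.gr X) X.dim (LinearMap.mulLeft W.K (W.cl X D)) Φ)

include hf hD hX hY

omit hX in
/-- The star operator of `Y` on the pull-back of `D ^ b p`. -/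
lemma st_map {i b : ℕ} (hib : i + b ≤ Y.dim) {p : W.H X} (hp : p ∈ W.gr X i)
    (hprim : (W.cl X D) ^ (X.dim - i + 1) * p = 0) :
    st W Y (ops.pull F D) g (W.map F ((W.cl X D) ^ b * p)) =
      ((sg (i + 2 * b) : W.K) * ((-1 : W.K) ^ b * (b.factorial *
        ((Y.dim - i - b).factorial : W.K)⁻¹))) • W.map F ((W.cl X D) ^ (Y.dim - i - b) * p) := by
  have hle := hf.le
  have hq : W.map F p ∈ W.gr Y i := W.map_mem F hp
  have hqp : ((LinearMap.mulLeft W.K (W.cl Y (ops.pull F D))) ^ (Y.dim - i + 1)) (W.map F p) =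
      0 := by
    rw [mulLeft_pow_apply, IsLefschetzMap.cl_pull_D, ← map_pow, ← map_mul]
    exact hf.map_eq_zero hD (by omega) (by omega) hp hprim
  have e1 : ∀ m, W.map F ((W.cl X D) ^ m * p) =
      ((LinearMap.mulLeft W.K (W.cl Y (ops.pull F D))) ^ m) (W.map F p) := by
    intro m
    rw [mulLeft_pow_apply, IsLefschetzMap.cl_pull_D, map_mul, map_pow]
  have t := fr_lefStr hY
  have hm : W.map F ((W.cl X D) ^ b * p) ∈ W.gr Y (i + 2 * b) := by
    have := W.map_mem F (W.mul_mem (xi_pow_mem (W := W) hD b) hp)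
    rwa [add_comm] at this
  rw [st_apply hm, e1, wop, t.w_L_pow (i := i) (by omega) hq hqp (j := b) (by omega), smul_smul,
    e1]

lemma st_self {i b : ℕ} (hi : i ≤ X.dim) (hib : b ≤ X.dim - i) {p : W.H X}
    (hp : p ∈ W.gr X i) (hprim : (W.cl X D) ^ (X.dim - i + 1) * p = 0) :
    st W X D f ((W.cl X D) ^ b * p) =
      ((sg (i + 2 * b) : W.K) * ((-1 : W.K) ^ b * (b.factorial *
        ((X.dim - i - b).factorial : W.K)⁻¹))) • ((W.cl X D) ^ (X.dim - i - b) * p) := by
  have t := fr_lefStr hX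
  have hm : (W.cl X D) ^ b * p ∈ W.gr X (i + 2 * b) := by
    have := W.mul_mem (xi_pow_mem (W := W) hD b) hp
    rwa [add_comm] at this
  have hp' : ((LinearMap.mulLeft W.K (W.cl X D)) ^ (X.dim - i + 1)) p = 0 := by
    rw [mulLeft_pow_apply, hprim]
  rw [st_apply hm, ← mulLeft_pow_apply, wop, t.w_L_pow hi hp hp' hib, smul_smul,
    ← mulLeft_pow_apply]

include hΦ

/-- The form on `Y` in terms of the form on `X`. -/
lemma form_base (a a' : W.H X) :
    bf W Y (ops.pull F D) g (W.map F a) (W.map F a') =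
      ∑ s, (cst hf.c X.dim Y.dim s : W.K) *
        bf W X D f (prj W X D Φ s a) (prj W X D Φ s a') := by
  have t := fr_lefStr hX
  have hle := hf.le
  refine lef_induction' (W.isInternal X) t.hL t.hbd t.hHL
    (p := fun a => bf W Y (ops.pull F D) g (W.map F a) (W.map F a') =
      ∑ s, (cst hf.c X.dim Y.dim s : W.K) *
        bf W X D f (prj W X D Φ s a) (prj W X D Φ s a')) ?_ ?_ a
  · intro a b ha hb
    simp only [map_add, LinearMap.add_apply, mul_add, Finset.sum_add_distrib]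
    rw [ha, hb]
  intro i hi p hp hprim b
  refine lef_induction' (W.isInternal X) t.hL t.hbd t.hHL
    (p := fun a' => bf W Y (ops.pull F D) g
      (W.map F (((LinearMap.mulLeft W.K (W.cl X D)) ^ b) p)) (W.map F a') =
      ∑ s, (cst hf.c X.dim Y.dim s : W.K) *
        bf W X D f (prj W X D Φ s (((LinearMap.mulLeft W.K (W.cl X D)) ^ b) p))
          (prj W X D Φ s a')) ?_ ?_ a'
  · intro a b ha hb
    simp only [map_add, mul_add, Finset.sum_add_distrib]
    rw [ha, hb]
  intro i' hi' p' hp' hprim' b'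
  by_cases hb : b ≤ X.dim - i
  swap
  · rw [L_pow_gt hprim (by omega)]
    simp
  by_cases hb' : b' ≤ X.dim - i'
  swap
  · rw [L_pow_gt hprim' (by omega)]
    simp
  have hP : (W.cl X D) ^ (X.dim - i + 1) * p = 0 := by rw [← mulLeft_pow_apply, hprim]
  have hP' : (W.cl X D) ^ (X.dim - i' + 1) * p' = 0 := by rw [← mulLeft_pow_apply, hprim']
  -- the right hand side
  have hR : ∑ s, (cst hf.c X.dim Y.dim s : W.K) *
      bf W X D f (prj W X D Φ s (((LinearMap.mulLeft W.K (W.cl X D)) ^ b) p))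
        (prj W X D Φ s (((LinearMap.mulLeft W.K (W.cl X D)) ^ b') p')) =
      if i = i' ∧ b = b' then (cst hf.c X.dim Y.dim (⟨i', by omega⟩, ⟨b', by omega⟩) : W.K) *
        bf W X D f (((LinearMap.mulLeft W.K (W.cl X D)) ^ b) p)
          (((LinearMap.mulLeft W.K (W.cl X D)) ^ b') p') else 0 := by
    rw [Finset.sum_eq_single (⟨i', by omega⟩, ⟨b', by omega⟩)]
    · rw [prj_apply t hΦ hi hp hprim hb, prj_apply t hΦ hi' hp' hprim' hb']
      simp only [and_self, if_true]
      by_cases h : i = i' ∧ b = b'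
      · rw [if_pos ⟨h.1.symm, h.2⟩, if_pos h]
      · rw [if_neg (by tauto), if_neg h]
        simp
    · intro s _ hs
      rw [prj_apply t hΦ hi' hp' hprim' hb', if_neg, map_zero, mul_zero]
      rintro ⟨h1, h2⟩
      apply hs
      exact Prod.ext (Fin.ext h1) (Fin.ext h2.symm)
    · intro h; exact absurd (Finset.mem_univ _) h
  rw [hR]
  simp only [mulLeft_pow_apply]
  by_cases hib : i' + b' ≤ Y.dim
  swap
  · rw [hf.map_eq_zero hD hi' (by omega) hp' hP', map_zero]
    have h0 : cst hf.c X.dim Y.dim (⟨i', by omega⟩, ⟨b', by omega⟩) = 0 := by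
      rw [cst, if_neg hib]
    rw [h0]
    simp
  rw [bf_apply, st_map hf hD hY hib hp' hP', mul_smul_comm, map_smul, smul_eq_mul, ← map_mul,
    hf.tr_map]
  have e1 : (W.cl X D) ^ (X.dim - Y.dim) * ((W.cl X D) ^ b * p *
      ((W.cl X D) ^ (Y.dim - i' - b') * p')) =
      (W.cl X D) ^ b * p * ((W.cl X D) ^ (X.dim - i' - b') * p') := by
    rw [← mul_assoc, mul_xi_comm hD, mul_assoc, ← mul_assoc ((W.cl X D) ^ (X.dim - Y.dim)),
      ← pow_add, show X.dim - Y.dim + (Y.dim - i' - b') = X.dim - i' - b' by omega]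
  rw [e1]
  by_cases h : i = i' ∧ b = b'
  · rw [if_pos h, bf_apply, st_self hf hD hX hY hi' hb' hp' hP', mul_smul_comm, map_smul,
      smul_eq_mul]
    have h0 : cst hf.c X.dim Y.dim (⟨i', by omega⟩, ⟨b', by omega⟩) =
        hf.c * (((X.dim - i' - b').factorial : ℚ) * ((Y.dim - i' - b').factorial : ℚ)⁻¹) := by
      rw [cst, if_pos hib]
    rw [h0]
    push_cast
    have h5 : ((X.dim - i' - b').factorial : W.K) ≠ 0 := by
      exact_mod_cast Nat.factorial_ne_zero _
    field_simp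
  · rw [if_neg h, tr_orth hD hi hi' hp hp' hP hP' hb' h, mul_zero, mul_zero]

/-- **Lefschetz maps are good.** -/
theorem good_base (haΦ : AOp W X X Φ) (hproj : ∀ i, AOp W X X (proj (W.isInternal X) i)) :
    GoodMap W F D f (ops.pull F D) g (prj W X D Φ) (cst hf.c X.dim Y.dim)
      (tht W X D Φ hf.c Y.dim) := by
  have t := fr_lefStr hX
  have hle := hf.le
  have hHL := fr_hardLefschetz hX
  have hrib : ∀ i b, AOp W X X (rib (W.isInternal X) (LinearMap.mulLeft W.K (W.cl X D)) Φ i b) :=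
    fun i b => ((AOp.ratSub.sub AOp.one (hX.Lop.mul haΦ)).mul (hproj i)).mul (haΦ.pow b)
  have hzero : ∀ {i b : ℕ} (_ : i ≤ X.dim) {p : W.H X} (_ : p ∈ W.gr X i)
      (_ : ((LinearMap.mulLeft W.K (W.cl X D)) ^ (X.dim - i + 1)) p = 0) (_ : Y.dim < i + b),
      W.map F (((LinearMap.mulLeft W.K (W.cl X D)) ^ b) p) = 0 := by
    intro i b hi p hp hprim hb
    rw [mulLeft_pow_apply]
    exact hf.map_eq_zero hD hi hb hp (by rw [← mulLeft_pow_apply, hprim])
  have hthm : ∀ a, W.map F (tht W X D Φ hf.c Y.dim (W.push F (W.map F a))) = W.map F a := by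
    intro a
    refine lef_induction' (W.isInternal X) t.hL t.hbd t.hHL (p := fun a =>
      W.map F (tht W X D Φ hf.c Y.dim (W.push F (W.map F a))) = W.map F a) ?_ ?_ a
    · intro a b ha hb
      simp only [map_add]
      rw [ha, hb]
    intro i hi p hp hprim b
    by_cases hb : i + b ≤ Y.dim
    · rw [hf.push_map, mulLeft_pow_apply, ← mul_assoc, ← pow_add, ← mulLeft_pow_apply, map_smul,
        show X.dim - Y.dim + b = b + (X.dim - Y.dim) by ring,
        tht_apply t hΦ hle hi hp hprim hb, smul_smul, Rat.cast_inv, mul_inv_cancel₀ hf.c_ne,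
        one_smul, mulLeft_pow_apply]
    · rw [hzero hi hp hprim (by omega)]
      simp
  refine ⟨hX, hY, W.cl_pull F D, ?_, ?_, ?_, ?_, form_base hf hD hX hY hΦ, ?_, hthm, ?_, ?_⟩
  · intro s
    exact (hX.Lop.pow _).mul (hrib _ _)
  · intro s
    rw [cst]
    split_ifs with h
    · have := hf.c_pos
      positivity
    · exact le_rfl
  · intro s hs a
    have hs' : ¬ ((s.1 : ℕ) + s.2 ≤ Y.dim) := by
      intro h
      rw [cst, if_pos h] at hs
      have := hf.c_pos
      have h1 : 0 < hf.c * (((X.dim - s.1 - s.2).factorial : ℚ) *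
        ((Y.dim - s.1 - s.2).factorial : ℚ)⁻¹) := by positivity
      exact h1.ne' hs
    refine lef_induction' (W.isInternal X) t.hL t.hbd t.hHL (p := fun a =>
      W.map F (prj W X D Φ s a) = 0) ?_ ?_ a
    · intro a b ha hb
      rw [map_add, map_add, ha, hb, add_zero]
    intro i hi p hp hprim b
    by_cases hb : b ≤ X.dim - i
    · rw [prj_apply t hΦ hi hp hprim hb]
      split_ifs with h
      · exact hzero hi hp hprim (by omega)
      · exact map_zero _
    · rw [L_pow_gt hprim (by omega), map_zero, map_zero]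
  · intro a
    have h1 := congrArg (fun G => G a) (sum_rib t hΦ)
    simp only [LinearMap.sum_apply, Module.End.one_apply] at h1
    rw [Fintype.sum_prod_type]
    refine Eq.trans ?_ h1
    rw [Finset.sum_range]
    apply Finset.sum_congr rfl
    intro i _
    rw [Finset.sum_range]
    rfl
  · apply AOp.ratSub.sum
    intro s _
    split_ifs
    · exact ((hX.Lop.pow _).mul (hrib _ _)).smul _
    · exact AOp.zero
  · intro y
    obtain ⟨a, v, rfl, hv⟩ := hf.exists_decomp hD hHL y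
    rw [map_add, hv, add_zero, hthm]
  · intro a
    refine lef_induction' (W.isInternal X) t.hL t.hbd t.hHL (p := fun a =>
      ∃ u, st W Y (ops.pull F D) g (W.map F a) = W.map F u) ?_ ?_ a
    · rintro a b ⟨u, hu⟩ ⟨v, hv⟩
      exact ⟨u + v, by rw [map_add, map_add, hu, hv, map_add]⟩
    intro i hi p hp hprim b
    by_cases hb : i + b ≤ Y.dim
    · refine ⟨((sg (i + 2 * b) : W.K) * ((-1 : W.K) ^ b * (b.factorial *
        ((Y.dim - i - b).factorial : W.K)⁻¹))) • ((W.cl X D) ^ (Y.dim - i - b) * p), ?_⟩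
      rw [mulLeft_pow_apply, st_map hf hD hY hb hp (by rw [← mulLeft_pow_apply, hprim]), map_smul]
    · exact ⟨0, by rw [hzero hi hp hprim (by omega)]; simp⟩

end Base

/-- The data of a good morphism, for some choice of the auxiliary operators. -/
def IsGood (W : WeilCohomology.{u, v} ops) {X Y : 𝒱.Obj} (F : Y ⟶ X) (D : X.Cycles)
    (E : Y.Cycles) : Prop :=
  ∃ (f : Module.End W.K (W.H X)) (g : Module.End W.K (W.H Y)) (ι : Type) (_ : Fintype ι)
    (Q : ι → Module.End W.K (W.H X)) (c : ι → ℚ) (Θ : Module.End W.K (W.H X)),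
    GoodMap W F D f E g Q c Θ

theorem IsLefschetzMap.isGood (hf : IsLefschetzMap W F D) (hD : X.IsCyc 1 D)
    (hHL : HardLefschetz W X D) (hB : LefschetzB W X D) : IsGood W F D (ops.pull F D) := by
  obtain ⟨f, hX, -⟩ := exists_fr hD hHL hB
  obtain ⟨g, hY, -⟩ := exists_fr (isCyc_pull (ops := ops) hD) (hf.hardLefschetz hD hHL)
    (hf.lefschetzB hD hHL hB)
  obtain ⟨Φ, hΦ, hLam⟩ := lefschetzB_iff_rop.1 hB
  exact ⟨f, g, _, inferInstance, _, _, _, good_base hf hD hX hY hLam (AOp.of_rop hΦ)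
    (proj_aop hD hHL hB)⟩

end Pool.Agent.V7H2.HT
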