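import Pool.Agent.V7H2.HT.LefGood
import Pool.Agent.H914R2.GConv

/-!
# The standard conjectures for products of Lefschetz maps
-/

open CategoryTheory AlgebraicGeometry

universe u v

namespace Pool.Agent.V7H2.HT

open Pool.Agent.H914 Pool.Agent.H914.VarClass Pool.Agent.H914.VarClass.Obj
  Pool.Agent.H914.WeilCohomology Pool.Agent.W552 Pool.Agent.H281R3.HT

variable {k : Type u} [Field k] {𝒱 : VarClass k} {ops : CycleOps 𝒱}
  {W : WeilCohomology.{u, v} ops} {X Y : 𝒱.Obj}

lemma KernelZero.kernelPositive {F : Y ⟶ X} (h : KernelZero W F) (E : Y.Cycles) :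
    HodgeTypeWhere W Y E (IsKilled W F) := fun j _ z hz h0 _ h1 => absurd (h j z hz h0) h1

lemma push_proj {F : Y ⟶ X} {v : W.H Y} (hv : W.push F v = 0) (i : ℕ) :
    W.push F (proj (W.isInternal Y) i v) = 0 := by
  apply W.nondeg
  intro b
  rw [W.tr_push]
  refine gr_induction (W.isInternal X) (p := fun b =>
    W.tr Y (proj (W.isInternal Y) i v * W.map F b) = 0) ?_ ?_ b
  · intro j b hb
    by_cases hij : i + j = 2 * Y.dim
    · have h2 : ∀ v : W.H Y, W.tr Y (proj (W.isInternal Y) i v * W.map F b) =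
          W.tr Y (v * W.map F b) := by
        intro v
        refine gr_induction (W.isInternal Y) (p := fun v =>
          W.tr Y (proj (W.isInternal Y) i v * W.map F b) = W.tr Y (v * W.map F b)) ?_ ?_ v
        · intro l v hv
          by_cases hl : l = i
          · subst hl; rw [proj_same _ hv]
          · rw [proj_ne _ hv hl, zero_mul, map_zero,
              W.tr_eq_zero (W.mul_mem hv (W.map_mem F hb)) (by omega)]
        · intro v v' hv hv'
          rw [map_add, add_mul, add_mul, map_add, map_add, hv, hv']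
      rw [h2, ← W.tr_push, hv, zero_mul, map_zero]
    · exact W.tr_eq_zero (W.mul_mem (proj_mem _ _ _) (W.map_mem F hb)) hij
  · intro b b' hb hb'
    rw [map_add, mul_add, map_add, hb, hb', add_zero]

lemma map_proj (F : Y ⟶ X) (a : W.H X) (i : ℕ) :
    W.map F (proj (W.isInternal X) i a) = proj (W.isInternal Y) i (W.map F a) := by
  refine gr_induction (W.isInternal X) (p := fun a =>
    W.map F (proj (W.isInternal X) i a) = proj (W.isInternal Y) i (W.map F a)) ?_ ?_ a
  · intro l a ha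
    by_cases hl : l = i
    · subst hl; rw [proj_same _ ha, proj_same _ (W.map_mem F ha)]
    · rw [proj_ne _ ha hl, proj_ne _ (W.map_mem F ha) hl, map_zero]
  · intro a a' ha ha'
    rw [map_add, map_add, map_add, map_add, ha, ha']

/-- The form is symmetric on the algebraic classes. -/
lemma bf_comm {E : Y.Cycles} {g : Module.End W.K (W.H Y)} (G : Fr W Y E g) {x y : W.H Y}
    (hx : AS W Y x) (hy : AS W Y y) : bf W Y E g x y = bf W Y E g y x := by
  have t := fr_lefStr G
  refine AS.ind (p := fun x => bf W Y E g x y = bf W Y E g y x) ?_ ?_ hx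
  · intro i x hx
    refine AS.ind (p := fun y => bf W Y E g x y = bf W Y E g y x) ?_ ?_ hy
    · intro j y hy
      have h1 := t.form_symm (B := bil W Y)
        (fun a b => by
          rw [bil_apply, bil_apply, LinearMap.mulLeft_apply, LinearMap.mulLeft_apply,
            W.even_comm (p := 1) (W.cl_mem G.hD) a, mul_assoc])
        (fun i j a ha b hb hij => W.tr_eq_zero (W.mul_mem ha hb) hij)
        (fun i j a ha b hb => by
          rw [bil_apply, bil_apply, W.comm ha hb, map_smul, smul_eq_mul]) (alg_gr hy)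
        (alg_gr hx)
      rw [pow_mul, neg_one_sq, one_pow, one_mul] at h1
      exact h1
    · intro a b ha hb
      rw [map_add, map_add, LinearMap.add_apply, ha, hb]
  · intro a b ha hb
    rw [map_add, map_add, LinearMap.add_apply, ha, hb]

namespace GoodMap

variable {F : Y ⟶ X} {D : X.Cycles} {f : Module.End W.K (W.H X)} {E : Y.Cycles}
  {g : Module.End W.K (W.H Y)} {ι : Type} [Fintype ι] {Q : ι → Module.End W.K (W.H X)}
  {c : ι → ℚ} {Θ : Module.End W.K (W.H X)} (h : GoodMap W F D f E g Q c Θ)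

include h

lemma perp {v : W.H Y} (hv : W.push F v = 0) (a : W.H X) : bf W Y E g v (W.map F a) = 0 := by
  obtain ⟨u, hu⟩ := h.star a
  rw [bf_apply, hu, ← W.tr_push, hv, zero_mul, map_zero]

lemma map_zero_of {a : W.H X} (h0 : W.push F (W.map F a) = 0) : W.map F a = 0 := by
  have := h.theta_map a
  rw [h0, map_zero, map_zero] at this
  exact this.symm

/-- Decomposition of the algebraic classes. -/
lemma split {x : W.H Y} (hx : AS W Y x) :
    ∃ a v, AS W X a ∧ AS W Y v ∧ W.push F v = 0 ∧ x = W.map F a + v := by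
  have h1 : AS W X (Θ (W.push F x)) := h.theta.apply (hx.push F)
  refine ⟨Θ (W.push F x), x - W.map F (Θ (W.push F x)), h1,
    AS.ratSub.sub hx (h1.map F), ?_, by abel⟩
  rw [map_sub, h.theta_push, sub_self]

lemma image_pos (hH : HodgeType W X D) {a : W.H X} (ha : AS W X a) (h0 : W.map F a ≠ 0) :
    ∃ q : ℚ, 0 < q ∧ bf W Y E g (W.map F a) (W.map F a) = q := by
  classical
  have key : ∀ s, ∃ q : ℚ, 0 ≤ q ∧ (Q s a ≠ 0 → 0 < q) ∧ bf W X D f (Q s a) (Q s a) = q := by
    intro s
    by_cases hs : Q s a = 0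
    · exact ⟨0, le_rfl, fun h => absurd hs h, by rw [hs]; simp⟩
    · obtain ⟨q, hq, hq'⟩ := h.frX.bf_pos hH ((h.aop s).apply ha) hs
      exact ⟨q, hq.le, fun _ => hq, hq'⟩
  choose q hq0 hq1 hq2 using key
  refine ⟨∑ s, c s * q s, ?_, ?_⟩
  · have hex : ∃ s, c s ≠ 0 ∧ Q s a ≠ 0 := by
      by_contra hcon
      push Not at hcon
      apply h0
      rw [← h.sum a, map_sum]
      apply Finset.sum_eq_zero
      intro s _
      by_cases hc : c s = 0
      · exact h.zero s hc a
      · rw [hcon s hc, map_zero]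
    obtain ⟨s, hs, hs'⟩ := hex
    refine Finset.sum_pos' (fun s _ => mul_nonneg (h.nonneg s) (hq0 s)) ⟨s, Finset.mem_univ s, ?_⟩
    exact mul_pos (lt_of_le_of_ne (h.nonneg s) (Ne.symm hs)) (hq1 s hs')
  · rw [h.form]
    push_cast
    apply Finset.sum_congr rfl
    intro s _
    rw [hq2]

/-- The algebraic classes with direct image zero form a Lefschetz structure. -/
lemma kerPart (hK : HodgeTypeWhere W Y E (IsKilled W F)) :
    AlgPart (W.gr Y) Y.dim (LinearMap.mulLeft W.K (W.cl Y E)) (bil W Y)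
      (fun l => {x | x ∈ algClasses W Y l ∧ W.push F x = 0}) where
  sub := fun l x hx => alg_gr hx.1
  zero l := ⟨alg_zero l, map_zero _⟩
  add := fun l x hx y hy => ⟨alg_add hx.1 hy.1, by rw [map_add, hx.2, hy.2, add_zero]⟩
  smul := fun l q x hx => ⟨alg_smul q hx.1, by rw [map_smul, hx.2, smul_zero]⟩
  map_L := by
    rintro l x ⟨hx, hx'⟩
    constructor
    · rw [LinearMap.mulLeft_apply, add_comm l 1]
      exact alg_mul ⟨E, h.frY.hD, rfl⟩ hx
    · rw [LinearMap.mulLeft_apply, W.even_comm (p := 1) (W.cl_mem h.frY.hD), h.clE, W.push_mul,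
        hx', zero_mul]
  rat := fun l l' x hx y hy => alg_rat hx.1 hy.1
  hl := by
    rintro l hl x ⟨hx, hx'⟩
    obtain ⟨z, hz, hzx⟩ := hx
    obtain ⟨z', hz', hz''⟩ := h.frY.lefschetzA l hl z hz
    rw [cl_divPow] at hz''
    obtain ⟨a, v, ha, hv, hpv, hav⟩ := h.split (AS.of ⟨z', hz', rfl⟩)
    -- the homogeneous components
    set a' := proj (W.isInternal X) (2 * l) a with ha'
    set v' := proj (W.isInternal Y) (2 * l) v with hv'
    have h1 : W.cl Y z' = W.map F a' + v' := by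
      have := congrArg (proj (W.isInternal Y) (2 * l)) hav
      rw [proj_same _ (W.cl_mem hz'), map_add, ← map_proj] at this
      exact this
    have hpv' : W.push F v' = 0 := push_proj hpv _
    have hLv : W.push F ((LinearMap.mulLeft W.K (W.cl Y E) ^ (Y.dim - 2 * l)) v') = 0 := by
      rw [mulLeft_pow_apply, mul_xi_comm h.frY.hD, h.clE, ← map_pow, W.push_mul, hpv', zero_mul]
    have hxz : x = W.cl Y z := hzx.symm
    have h2 : (LinearMap.mulLeft W.K (W.cl Y E) ^ (Y.dim - 2 * l)) (W.map F a') = 0 := by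
      have h3 : (LinearMap.mulLeft W.K (W.cl Y E) ^ (Y.dim - 2 * l)) (W.map F a') =
          W.map F ((W.cl X D) ^ (Y.dim - 2 * l) * a') := by
        rw [mulLeft_pow_apply, h.clE, map_mul, map_pow]
      rw [h3]
      apply h.map_zero_of
      rw [← h3]
      have h4 : (LinearMap.mulLeft W.K (W.cl Y E) ^ (Y.dim - 2 * l)) (W.map F a') =
          x - (LinearMap.mulLeft W.K (W.cl Y E) ^ (Y.dim - 2 * l)) v' := by
        rw [hxz, ← hz'', h1, map_add]
        abel
      rw [h4, map_sub, hx', hLv, sub_self]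
    have h5 : W.map F a' = 0 := (fr_hardLefschetz h.frY (2 * l) hl).1 _
      (W.map_mem F (proj_mem _ _ _)) h2
    refine ⟨W.cl Y z', ⟨⟨z', hz', rfl⟩, ?_⟩, by rw [hz'', hxz]⟩
    rw [h1, h5, zero_add, hpv']
  pos := by
    rintro l hl x ⟨⟨z, hz, rfl⟩, hx'⟩ hp h0
    refine ⟨_, ?_, hK l hl z hz (by rw [IsKilled, W.cl_push]; exact hx')
      (by rw [cl_divPow]; exact hp) h0⟩
    rw [bil_apply, ← cl_divPow, ← W.cl_mul, W.tr_cl]
    have := ops.mul_mem hz (divPow_mem (ops := ops) h.frY.hD (Y.dim - 2 * l) hz)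
    rwa [show l + (l + (Y.dim - 2 * l)) = Y.dim by omega] at this
  self a b := by
    rw [bil_apply, bil_apply, LinearMap.mulLeft_apply, LinearMap.mulLeft_apply,
      W.even_comm (p := 1) (W.cl_mem h.frY.hD) a, mul_assoc]
  deg i j a ha b hb hij := W.tr_eq_zero (W.mul_mem ha hb) hij
  symm l a ha b := by
    rw [bil_apply, bil_apply, W.even_comm ha]

/-- Positivity on the algebraic classes with direct image zero. -/
lemma kernel_pos (hK : HodgeTypeWhere W Y E (IsKilled W F)) {x : W.H Y} (hx : AS W Y x)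
    (hx' : W.push F x = 0) (hx0 : x ≠ 0) :
    ∃ q : ℚ, 0 < q ∧ bf W Y E g x x = q := by
  classical
  have hC := h.kerPart hK
  have G := h.frY
  have t := G.sl2
  set L : Module.End W.K (W.H Y) := LinearMap.mulLeft W.K (W.cl Y E) with hL
  have hw1 : wey L g * L = -(g * wey L g) := wey_e t
  have hw3 : ∀ (m : ℕ) (v : W.H Y), g v = 0 → wt (W.isInternal Y) Y.dim v = -(m : W.K) • v →
      wey L g v = ((m.factorial : W.K)⁻¹) • (L ^ m) v := fun m v hv hm => wey_lowest t hv hm
  have hHw : ∀ i, ∀ a ∈ W.gr Y i, wt (W.isInternal Y) Y.dim a = ((i : W.K) - Y.dim) • a :=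
    fun i a ha => Fr.wt_gr ha
  have hlow : ∀ i ≤ Y.dim, ∀ a ∈ W.gr Y i, (L ^ (Y.dim - i + 1)) a = 0 → g a = 0 := by
    intro i hi a ha h0
    refine t.f_eq_zero (M := Y.dim - i) ?_ h0
    rw [hHw i a ha, Nat.cast_sub hi]
    congr 1
    ring
  have key : ∀ j, ∃ q : ℚ, 0 ≤ q ∧ (proj (W.isInternal Y) (2 * j) x ≠ 0 → 0 < q) ∧
      bf W Y E g (proj (W.isInternal Y) (2 * j) x) (proj (W.isInternal Y) (2 * j) x) = q := by
    intro j
    have h1 := hx.proj j
    have h2 := push_proj hx' (2 * j)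
    by_cases h0 : proj (W.isInternal Y) (2 * j) x = 0
    · exact ⟨0, le_rfl, fun h => absurd h0 h, by rw [h0]; simp⟩
    obtain ⟨s, hs, hs'⟩ := hC.weyl_pos t hw1 hw3 hlow hHw (mulLeft_isHom G.hD) W_hbd (l := j)
      ⟨h1, h2⟩ h0
    refine ⟨(-1) ^ j * s, hs'.le, fun _ => hs', ?_⟩
    rw [bf_apply, st_apply (alg_gr h1), mul_smul_comm, map_smul, ← bil_apply]
    rw [hL] at hs
    rw [hs, sg_two_mul, smul_eq_mul]
    push_cast
    rfl
  choose q hq0 hq1 hq2 using key
  refine ⟨∑ j ∈ Finset.range (Y.dim + 1), q j, ?_, ?_⟩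
  · have hex : ∃ j ∈ Finset.range (Y.dim + 1), proj (W.isInternal Y) (2 * j) x ≠ 0 := by
      by_contra h0
      push Not at h0
      apply hx0
      rw [Fr.AS_sum hx, Finset.sum_eq_zero h0]
    obtain ⟨j, hj, hj0⟩ := hex
    exact Finset.sum_pos' (fun b hb => hq0 b) ⟨j, hj, hq1 j hj0⟩
  · have h1 : bf W Y E g x x = bf W Y E g
        (∑ j ∈ Finset.range (Y.dim + 1), proj (W.isInternal Y) (2 * j) x)
        (∑ j ∈ Finset.range (Y.dim + 1), proj (W.isInternal Y) (2 * j) x) := by
      rw [← Fr.AS_sum hx]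
    rw [h1, map_sum (bf W Y E g), LinearMap.sum_apply, Rat.cast_sum]
    apply Finset.sum_congr rfl
    intro j hj
    rw [map_sum, Finset.sum_eq_single j, hq2]
    · intro i _ hi
      exact G.bf_deg (proj_mem _ _ _) (proj_mem _ _ _) (by omega)
    · intro h0; exact absurd hj h0

/-- **Positivity of the form on `Y`.** -/
theorem pos (hH : HodgeType W X D) (hK : HodgeTypeWhere W Y E (IsKilled W F)) {x : W.H Y} (hx : AS W Y x)
    (hx0 : x ≠ 0) : ∃ q : ℚ, 0 < q ∧ bf W Y E g x x = q := by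
  obtain ⟨a, v, ha, hv, hpv, rfl⟩ := h.split hx
  have h1 := h.perp hpv a
  have h2 : bf W Y E g (W.map F a) v = 0 := by rw [bf_comm h.frY (ha.map F) hv, h1]
  have h3 : bf W Y E g (W.map F a + v) (W.map F a + v) =
      bf W Y E g (W.map F a) (W.map F a) + bf W Y E g v v := by
    rw [map_add, map_add, LinearMap.add_apply, LinearMap.add_apply, h1, h2, add_zero, zero_add]
  rw [h3]
  by_cases ha0 : W.map F a = 0
  · have hv0 : v ≠ 0 := by
      rintro rfl
      exact hx0 (by rw [ha0, add_zero])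
    obtain ⟨q, hq, hq'⟩ := h.kernel_pos hK hv hpv hv0
    exact ⟨q, hq, by rw [ha0, hq']; simp⟩
  · obtain ⟨r, hr, hr'⟩ := h.image_pos hH ha ha0
    by_cases hv0 : v = 0
    · exact ⟨r, hr, by rw [hv0, hr']; simp⟩
    · obtain ⟨q, hq, hq'⟩ := h.kernel_pos hK hv hpv hv0
      exact ⟨r + q, add_pos hr hq, by rw [hr', hq']; push_cast; rfl⟩

theorem hodge (hH : HodgeType W X D) (hK : HodgeTypeWhere W Y E (IsKilled W F)) :
    HodgeType W Y E ∧ HomEqNum W Y :=
  ⟨fun _ hj _ hz => (h.frY.hodge hz (h.pos hH hK (AS.of ⟨_, hz, rfl⟩))).1 hj,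
    fun _ hj _ hz => (h.frY.hodge hz (h.pos hH hK (AS.of ⟨_, hz, rfl⟩))).2 hj⟩

theorem hodge_on (hH : HodgeType W X D) :
    HodgeTypeWhere W Y E (IsPulledBack W F) ∧ HomEqNumWhere W Y (IsPulledBack W F) := by
  have key : ∀ j z, Y.IsCyc j z → IsPulledBack W F z →
      W.cl Y z ≠ 0 → ∃ q : ℚ, 0 < q ∧ bf W Y E g (W.cl Y z) (W.cl Y z) = q := by
    rintro j z hz ⟨b, hb'⟩ h0
    obtain ⟨a, v, ha, hv, hpv, hav⟩ := h.split (AS.of ⟨z, hz, rfl⟩)
    have h1 : W.map F (b - a) = v := by rw [map_sub, hb', hav]; abel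
    have h2 : v = 0 := by
      rw [← h1]
      apply h.map_zero_of
      rw [h1, hpv]
    rw [h2, add_zero] at hav
    rw [hav] at h0 ⊢
    exact h.image_pos hH ha h0
  exact ⟨fun j hj z hz hzs => (h.frY.hodge hz (key j z hz hzs)).1 hj,
    fun j hj z hz hzs => (h.frY.hodge hz (key j z hz hzs)).2 hj⟩

end GoodMap

end Pool.Agent.V7H2.HT
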