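import Pool.Agent.V7H2.HT.Core

/-!
# Homological and numerical equivalence, towers, and the Lefschetz standard conjecture
-/

open CategoryTheory AlgebraicGeometry Finset

universe u v

namespace Pool.Agent.V7H2.HT

open Pool.Agent.H914 Pool.Agent.H914.VarClass Pool.Agent.H914.VarClass.Obj
  Pool.Agent.H914.WeilCohomology

variable {k : Type u} [Field k] {𝒱 : VarClass k} {ops : CycleOps 𝒱}
  {W : WeilCohomology.{u, v} ops} {X Y Z : 𝒱.Obj}

/-- The conjectures `A` and of Hodge type imply the conjecture `D`. -/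
theorem homEqNum_of_hodgeType {D : X.Cycles} (hD : X.IsCyc 1 D) (hHL : HardLefschetz W X D)
    (hA : LefschetzA W X D) (hH : HodgeType W X D) : HomEqNum W X := by
  intro j hj z hz hnum
  by_contra h0
  set n := X.dim with hn
  set L : Module.End W.K (W.H X) := LinearMap.mulLeft W.K (W.cl X D) with hL
  have h := W.isInternal X
  have hbd : ∀ i, 2 * n + 1 ≤ i → W.gr X i = ⊥ := W_hbd
  have hLh : IsHom (W.gr X) 2 L := mulLeft_isHom hD
  have hC : AlgPart (W.gr X) n L (bil W X) (algClasses W X) := algPart hD hA hH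
  have hHL' : HardLef (W.gr X) n L := hHL
  obtain ⟨Lam, t, hLamh, hval⟩ := exists_sl2 h hLh hbd hHL'
  obtain ⟨w, hw1, -, hw3, hw4⟩ := exists_weyl t
  have hlow : ∀ i ≤ n, ∀ a ∈ W.gr X i, (L ^ (n - i + 1)) a = 0 → Lam a = 0 := by
    intro i hi a ha hp
    have := hval i hi a ha hp 0 (by omega)
    simpa using this
  have hHw : ∀ i, ∀ a ∈ W.gr X i, wt h n a = ((i : W.K) - n) • a := by
    intro i a ha
    rw [wt, scal_apply h _ ha, node]
    push_cast; rfl
  obtain ⟨s, hs, hs0⟩ := hC.weyl_pos t hw1 hw3 hlow hHw hLh hbd (l := j)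
    (c := W.cl X z) ⟨z, hz, rfl⟩ h0
  obtain ⟨w', hw', hw''⟩ := hC.weyl_mem t hw1 hw3 hlow hHw hLh hbd (l := j) hj
    (c := W.cl X z) ⟨z, hz, rfl⟩
  have h1 := ops.mul_mem hz hw'
  rw [show j + (n - j) = n by omega] at h1
  rw [← hw'', bil_apply, ← W.cl_mul, W.tr_cl h1, hnum w' hw'] at hs
  have hs' : s = 0 := by
    have : (s : W.K) = ((0 : ℚ) : W.K) := hs.symm
    exact_mod_cast this
  rw [hs', mul_zero] at hs0
  exact lt_irrefl _ hs0

namespace IsLefschetzMap

lemma id (W : WeilCohomology.{u, v} ops) (X : 𝒱.Obj) (D : X.Cycles) :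
    IsLefschetzMap W (𝟙 X) D :=
  IsLefschetzMap.of le_rfl ⟨1, one_pos, by rw [W.push_id]; simp⟩
    fun i _ b hb => ⟨b, hb, W.map_id X b⟩

/-- Lefschetz maps can be composed. -/
lemma comp {f : Y ⟶ X} {g : Z ⟶ Y} {D : X.Cycles} (hf : IsLefschetzMap W f D)
    (hg : IsLefschetzMap W g (ops.pull f D)) : IsLefschetzMap W (g ≫ f) D := by
  refine IsLefschetzMap.of (hg.le.trans hf.le) ?_ ?_
  · have h1 := hf.le
    have h2 := hg.le
    refine ⟨hg.c * hf.c, mul_pos hg.c_pos hf.c_pos, ?_⟩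
    rw [W.push_comp, hg.push_fund, map_smul, W.cl_pull, ← map_pow, hf.push_map, smul_smul,
      ← pow_add, show X.dim - Y.dim + (Y.dim - Z.dim) = X.dim - Z.dim by omega]
    push_cast
    rfl
  · intro i hi b hb
    obtain ⟨y, hy, rfl⟩ := hg.surj i hi b hb
    obtain ⟨x, hx, rfl⟩ := hf.surj i (hi.trans_le hg.le) y hy
    exact ⟨x, hx, W.map_comp _ _ _⟩

end IsLefschetzMap

theorem IsLefschetzTower.isLefschetzMap {D : X.Cycles} {f : Y ⟶ X}
    (h : IsLefschetzTower W X D Y f) : IsLefschetzMap W f D := by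
  induction h with
  | base => exact IsLefschetzMap.id W X D
  | step _ hg ih => exact ih.comp hg

/-- The direct image is given by an algebraic correspondence. -/
lemma push_mem_KOp (f : Y ⟶ X) : W.push f ∈ KOp W Y X ((X.dim : ℤ) - Y.dim) := by
  have h1 : W.push f = W.corr (W.cl (Y.prod X)
      (ops.push (lift (𝟙 Y) f) Y.V.fundCycle)) := by
    ext a
    have e1 : lift (𝟙 Y) f ≫ fst Y X = 𝟙 Y := lift_fst _ _
    have e2 : lift (𝟙 Y) f ≫ snd Y X = f := lift_snd _ _
    rw [corr_apply, W.cl_push, W.cl_fund, ← W.push_mul, one_mul, ← W.push_comp, ← W.map_comp, e1,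
      e2, W.map_id]
  rw [h1]
  refine KOp.gen (p := X.dim) (by ring) (ops.push_mem (p := 0) _ (SmVar.fundCycle_mem _) ?_)
  rw [dim_prod]
  omega

/-- The pull-back is given by an algebraic correspondence. -/
lemma map_mem_KOp (f : Y ⟶ X) : (W.map f).toLinearMap ∈ KOp W X Y 0 := by
  have h1 : (W.map f).toLinearMap = W.corr (W.cl (X.prod Y)
      (ops.push (lift f (𝟙 Y)) Y.V.fundCycle)) := by
    ext a
    have e1 : lift f (𝟙 Y) ≫ fst X Y = f := lift_fst _ _
    have e2 : lift f (𝟙 Y) ≫ snd X Y = 𝟙 Y := lift_snd _ _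
    rw [corr_apply, W.cl_push, W.cl_fund, ← W.push_mul, one_mul, ← W.push_comp, ← W.map_comp, e1,
      e2, W.push_id]
    rfl
  rw [h1]
  refine KOp.gen (p := X.dim) (by ring) (ops.push_mem (p := 0) _ (SmVar.fundCycle_mem _) ?_)
  rw [dim_prod]
  omega

lemma InfiniteMonodromy.vanishingPositive {f : Y ⟶ X} (h : InfiniteMonodromy W f) :
    VanishingPositive W f := by
  obtain ⟨Γ, h1, h2⟩ := h
  intro j hj z hz hp h0
  have hm : W.cl Y z ∈ W.gr Y Y.dim := by
    rw [← hj]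
    exact W.cl_mem hz
  rw [W.cl_push] at hp
  exact absurd (h1 j _ ⟨z, hz, rfl⟩) (h2 _ ⟨hm, hp⟩ h0)

/-- **Transfer of the standard conjectures of Lefschetz and Hodge type along a Lefschetz map.** -/
theorem IsLefschetzMap.main {f : Y ⟶ X} {D : X.Cycles} (hf : IsLefschetzMap W f D)
    (hD : X.IsCyc 1 D) (hHL : HardLefschetz W X D) (hA : LefschetzA W X D) :
    HardLefschetz W Y (ops.pull f D) ∧ LefschetzA W Y (ops.pull f D) ∧ HodgeTransfer W f D := by
  have h1 := hf.hardLefschetz hD hHL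
  have h2 := hf.lefschetzA hD hA
  have h4 : HodgeType W Y (ops.pull f D) ↔
      (∀ j, 2 * j ≤ Y.dim → HodgeTypeIn W X D j) ∧ VanishingPositive W f := by
    constructor
    · intro h
      exact ⟨fun j hj => hf.hodgeTypeIn_conv hD hHL hj (h j hj),
        fun j hj => ((hf.hodgeTypeIn_middle hD hHL hA hj).1 (h j hj.le)).2 j hj⟩
    · rintro ⟨hH, hV⟩ j hj
      rcases hj.eq_or_lt with h | h
      · exact (hf.hodgeTypeIn_middle hD hHL hA h).2 ⟨hH j hj, hV⟩
      · exact hf.hodgeTypeIn hD hHL hA h (hH j hj)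
  refine ⟨h1, h2, fun j hj => ⟨fun h => hf.hodgeTypeIn_conv hD hHL hj.le h,
    fun h => hf.hodgeTypeIn hD hHL hA hj h⟩, h4, fun hH hor => ?_⟩
  have hV : VanishingPositive W f := by
    rcases hor with h | h
    · exact vanishingPositive_of_odd h
    · exact h.vanishingPositive
  have h5 := h4.2 ⟨hH, hV⟩
  exact ⟨h5, homEqNum_of_hodgeType (isCyc_pull hD) h1 h2 h5⟩

/-- **The Lefschetz standard conjecture for `Y`.** -/
theorem IsLefschetzMap.lefschetzB {f : Y ⟶ X} {D : X.Cycles} (hf : IsLefschetzMap W f D)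
    (hD : X.IsCyc 1 D) (hHL : HardLefschetz W X D) (hB : LefschetzB W X D) :
    LefschetzB W Y (ops.pull f D) := by
  have hle := hf.le
  apply lefschetzB_of_inj (isCyc_pull hD) (hf.hardLefschetz hD hHL)
  intro c hc
  rcases Nat.eq_zero_or_pos c with rfl | hc0
  · exact ⟨LinearMap.id, KOp.cast (KOp.id Y) (by simp), fun a _ h => h⟩
  · obtain ⟨ν, hν, hinj⟩ := inj_of_lefschetzB hD hHL hB (X.dim - Y.dim + c) (by omega)
    refine ⟨(W.map f).toLinearMap ∘ₗ (ν ∘ₗ W.push f), ?_, ?_⟩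
    · exact KOp.cast (KOp.comp (map_mem_KOp f) (KOp.comp hν (push_mem_KOp f))) (by omega)
    · intro a ha h0
      have h1 := W.push_mem f ha
      rw [show ((Y.dim + c : ℕ) : ℤ) + 2 * ((X.dim : ℤ) - Y.dim) =
        ((X.dim + (X.dim - Y.dim + c) : ℕ) : ℤ) by omega] at h1
      have h2 := KOp.isHom hν _ _ h1
      rw [show ((X.dim + (X.dim - Y.dim + c) : ℕ) : ℤ) + 2 * -((X.dim - Y.dim + c : ℕ) : ℤ) =
        ((Y.dim - c : ℕ) : ℤ) by omega, grZ_natCast] at h2
      rw [grZ_natCast] at h1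
      have h3 := hf.map_inj hD hHL (i := Y.dim - c) (by omega) h2 h0
      exact hf.push_inj (i := Y.dim + c) (by omega) ha (hinj _ h1 h3)

end Pool.Agent.V7H2.HT
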