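import Pool.Agent.V7H2.HT.Main

/-!
# Products of Lefschetz maps
-/

open CategoryTheory AlgebraicGeometry

universe u v

namespace Pool.Agent.V7H2.HT

open Pool.Agent.H914 Pool.Agent.H914.VarClass Pool.Agent.H914.VarClass.Obj
  Pool.Agent.H914.WeilCohomology Pool.Agent.W552 Pool.Agent.H281R3.HT

variable {k : Type u} [Field k] {𝒱 : VarClass k} {ops : CycleOps 𝒱}
  {W : WeilCohomology.{u, v} ops} {X X' Y Y' Z : 𝒱.Obj}

/-- A homogeneous operator induced by a sum of algebraic classes is induced by an algebraic class of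
the right codimension. -/
lemma kop_of_aop {u : Module.End W.K (W.H X)} (hu : AOp W X X u) {r : ℕ}
    (hr : IsHom (W.gr X) (-(2 * r : ℤ)) u) : u ∈ KOp W X X (-r) := by
  obtain ⟨C, hC, rfl⟩ := hu
  by_cases hrn : r ≤ X.dim
  · have h1 := hC.proj (X.dim - r)
    set C' := proj (W.isInternal (X.prod X)) (2 * (X.dim - r)) C with hC'
    have h2 : W.corr C = W.corr C' := by
      apply gr_ext (W.isInternal X)
      intro i a ha
      have hdiff : ∀ C : W.H (X.prod X), AS W (X.prod X) C → ∀ m : ℕ,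
          (m : ℤ) = i - 2 * r → proj (W.isInternal X) m (W.corr C a) =
            W.corr (proj (W.isInternal (X.prod X)) (2 * (X.dim - r)) C) a := by
        intro C hC m hm
        refine AS.ind (p := fun C => proj (W.isInternal X) m (W.corr C a) =
            W.corr (proj (W.isInternal (X.prod X)) (2 * (X.dim - r)) C) a) ?_ ?_ hC
        · intro j C hj
          have h3 := W.corr_isHom (alg_gr hj) i a (by rw [grZ_natCast]; exact ha)
          by_cases hjr : j = X.dim - r
          · subst hjr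
            rw [proj_same _ (alg_gr hj)]
            apply proj_same
            rw [show (i : ℤ) + 2 * (((X.dim - r : ℕ) : ℤ) - X.dim) = (m : ℤ) by omega,
              grZ_natCast] at h3
            exact h3
          · rw [proj_ne _ (alg_gr hj) (by omega), corr_zero, LinearMap.zero_apply]
            by_cases hneg : (i : ℤ) + 2 * ((j : ℤ) - X.dim) < 0
            · rw [grZ_of_neg hneg] at h3
              rw [(Submodule.mem_bot _).1 h3, map_zero]
            · obtain ⟨l, hl⟩ := Int.eq_ofNat_of_zero_le (not_lt.1 hneg)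
              rw [hl] at h3
              have h3' : W.corr C a ∈ grZ (W.gr X) (l : ℤ) := h3
              rw [grZ_natCast] at h3'
              refine proj_ne _ h3' ?_
              intro hlm
              apply hjr
              have h4 : (l : ℤ) = m := by exact_mod_cast hlm
              rw [hm] at h4
              have h5 : (i : ℤ) + 2 * ((j : ℤ) - X.dim) = l := hl
              omega
        · intro C D hC hD
          rw [corr_add, LinearMap.add_apply, map_add, hC, hD, map_add, corr_add,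
            LinearMap.add_apply]
      have h4 := hr i a (by rw [grZ_natCast]; exact ha)
      by_cases hi : (i : ℤ) - 2 * r < 0
      · rw [grZ_of_neg (by omega)] at h4
        rw [(Submodule.mem_bot _).1 h4]
        have h5 := W.corr_isHom (alg_gr h1) i a (by rw [grZ_natCast]; exact ha)
        rw [grZ_of_neg (by omega)] at h5
        exact ((Submodule.mem_bot _).1 h5).symm
      · obtain ⟨m, hm⟩ := Int.eq_ofNat_of_zero_le (not_lt.1 hi)
        have hm' : (m : ℤ) = i - 2 * r := hm.symm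
        rw [hC', ← hdiff C hC m hm']
        rw [show (i : ℤ) + -(2 * (r : ℤ)) = (m : ℤ) by omega, grZ_natCast] at h4
        exact (proj_same _ h4).symm
    rw [h2]
    obtain ⟨z, hz, hz'⟩ := h1
    rw [← hz']
    exact KOp.gen (p := X.dim - r) (by omega) hz
  · have h0 : W.corr C = 0 := by
      refine eq_zero_of_isHom (W.isInternal X) (n := X.dim) (fun i hi => W.gr_eq_bot X i hi)
        (d := -(2 * r : ℤ)) (by omega) hr
    rw [h0]
    exact Submodule.zero_mem _

/-- The Lefschetz standard conjecture from the algebraicity of the lowering operator. -/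
theorem fr_lefschetzB {D : X.Cycles} {f : Module.End W.K (W.H X)} (F : Fr W X D f) :
    LefschetzB W X D := by
  have hHL := fr_hardLefschetz F
  apply lefschetzB_of_inj F.hD hHL
  intro c hc
  have hfh : IsHom (W.gr X) (-2) f := by
    intro i a ha
    by_cases hi : 0 ≤ i
    · lift i to ℕ using hi
      rw [grZ_natCast] at ha
      have h1 := F.f_gr ha
      by_cases h2 : i < 2
      · rw [h1.2 h2]; exact Submodule.zero_mem _
      · rw [show (i : ℤ) + -2 = ((i - 2 : ℕ) : ℤ) by omega, grZ_natCast]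
        exact h1.1 (i - 2) (by omega)
    · rw [grZ_of_neg (by omega)] at ha
      rw [(Submodule.mem_bot _).1 ha, map_zero]
      exact Submodule.zero_mem _
  refine ⟨f ^ c, ?_, ?_⟩
  · apply kop_of_aop (F.aop.pow c)
    have := hfh.pow c
    rwa [show (c : ℤ) * -2 = -(2 * (c : ℤ)) by ring] at this
  · intro a ha h0
    obtain ⟨b, hb, hb'⟩ := (hHL (X.dim - c) (by omega)).2 a
      (by rw [show 2 * X.dim - (X.dim - c) = X.dim + c by omega]; exact ha)
    rw [show X.dim - (X.dim - c) = c by omega] at hb'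
    by_contra ha0
    -- lowest weight theory: `f ^ c` is injective in degree `dim X + c`
    have t := fr_lefStr F
    have key : ∀ i ≤ X.dim, ∀ p ∈ W.gr X i,
        (LinearMap.mulLeft W.K (W.cl X D) ^ (X.dim - i + 1)) p = 0 → True := fun _ _ _ _ _ => trivial
    have h1 : wop W X D f (wop W X D f a) = (-1 : W.K) ^ (X.dim + (X.dim + c)) • a := t.w_sq ha
    have h2 : wop W X D f a ∈ W.gr X (X.dim - c) := by
      have := F.w_mem (i := X.dim + c) (by omega) ha
      rwa [show 2 * X.dim - (X.dim + c) = X.dim - c by omega] at this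
    have h3 : ∀ m : ℕ, ∀ y, wop W X D f ((f ^ m) y) =
        (-1 : W.K) ^ m • (LinearMap.mulLeft W.K (W.cl X D) ^ m) (wop W X D f y) := by
      intro m
      induction m with
      | zero => intro y; simp
      | succ m ih =>
        intro y
        have h4 : ∀ y, wop W X D f (f y) =
            -(LinearMap.mulLeft W.K (W.cl X D)) (wop W X D f y) := by
          intro y
          have := congrArg (fun G => G y) (wey_f F.sl2)
          exact this
        rw [pow_succ' f, Module.End.mul_apply, h4, ih, map_smul, pow_succ' (-1 : W.K), neg_one_mul,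
          neg_smul, pow_succ' (LinearMap.mulLeft W.K (W.cl X D)), Module.End.mul_apply]
    have h5 := h3 c a
    rw [h0, map_zero] at h5
    have h6 : (LinearMap.mulLeft W.K (W.cl X D) ^ c) (wop W X D f a) = 0 := by
      rcases smul_eq_zero.1 h5.symm with h | h
      · exact absurd h (pow_ne_zero _ (by norm_num))
      · exact h
    have h7 : wop W X D f a = 0 := by
      refine (hHL (X.dim - c) (by omega)).1 _ h2 ?_
      rw [show X.dim - (X.dim - c) = c by omega]
      exact h6
    rw [h7, map_zero] at h1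
    rcases smul_eq_zero.1 h1.symm with h | h
    · exact pow_ne_zero _ (by norm_num) h
    · exact ha0 h

/-- The Lefschetz standard conjecture implies the Kunneth standard conjecture. -/
theorem kunneth_of_lefschetzB {D : X.Cycles} (hD : X.IsCyc 1 D) (hHL : HardLefschetz W X D)
    (hB : LefschetzB W X D) : KunnethStd W X := by
  intro i
  obtain ⟨Φ, hΦ, hLam⟩ := lefschetzB_iff_rop.1 hB
  obtain ⟨P, hP, hP'⟩ := cyc_of_rop
    (rop_opAlg.proj_mem (W.isInternal X) W_hbd (rop_mulLeft hD) hHL hΦ hLam i)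
  refine ⟨P, hP, ?_⟩
  intro j a ha
  rw [hP']
  split_ifs with h
  · subst h; exact proj_same _ ha
  · exact proj_ne _ ha h

lemma IsGood.congr {F : Y ⟶ X} {D : X.Cycles} {E E' : Y.Cycles} (h : IsGood W F D E)
    (hE' : Y.IsCyc 1 E') (hcl : W.cl Y E = W.cl Y E') : IsGood W F D E' := by
  obtain ⟨f, g, ι, hι, Q, c, Θ, h⟩ := h
  have e1 : bf W Y E' g = bf W Y E g := by simp only [bf, st, hcl]
  have e2 : st W Y E' g = st W Y E g := by simp only [st, hcl]
  refine ⟨f, g, ι, hι, Q, c, Θ, ⟨h.frX, ⟨hE', hcl ▸ h.frY.sl2, h.frY.aop⟩, hcl ▸ h.clE, h.aop,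
    h.nonneg, h.zero, h.sum, ?_, h.theta, h.theta_map, h.theta_push, ?_⟩⟩
  · rw [e1]; exact h.form
  · rw [e2]; exact h.star

theorem IsLefschetzProduct.isGood {P : Polarized 𝒱} {F : Y ⟶ P.X}
    (h : IsLefschetzProduct W P Y F) : P.X.IsCyc 1 P.D ∧ IsGood W F P.D (ops.pull F P.D) := by
  induction h with
  | map hP hf => exact ⟨hP.divisor, hf.isGood hP.divisor hP.hardLefschetz hP.lefschetzB⟩
  | @prod P P' Y Y' F F' _ _ ih ih' =>
    obtain ⟨hD, f, g, ι, hι, Q, c, Θ, h⟩ := ih
    obtain ⟨hD', f', g', ι', hι', Q', c', Θ', h'⟩ := ih'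
    have hDD : (P.X.prod P'.X).IsCyc 1 (ops.pull (fst P.X P'.X) P.D +
        ops.pull (snd P.X P'.X) P'.D) :=
      SmVar.IsCyc.add (ops.pull_mem _ hD) (ops.pull_mem _ hD')
    refine ⟨hDD, ?_⟩
    have h1 : IsGood W (prodMap F F') (ops.pull (fst P.X P'.X) P.D +
        ops.pull (snd P.X P'.X) P'.D)
        (ops.pull (fst Y Y') (ops.pull F P.D) + ops.pull (snd Y Y') (ops.pull F' P'.D)) :=
      ⟨_, _, _, inferInstance, _, _, _, h.prod h'⟩
    refine h1.congr (ops.pull_mem _ hDD) ?_
    change W.cl (Y.prod Y') (ops.pull (fst Y Y') (ops.pull F P.D) +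
      ops.pull (snd Y Y') (ops.pull F' P'.D)) = W.cl (Y.prod Y') (ops.pull (prodMap F F')
        (ops.pull (fst P.X P'.X) P.D + ops.pull (snd P.X P'.X) P'.D))
    rw [map_add, W.cl_pull, W.cl_pull, W.cl_pull, W.cl_pull, W.cl_pull, map_add, W.cl_pull,
      W.cl_pull, map_add, ← W.map_comp, ← W.map_comp, ← W.map_comp, ← W.map_comp, prodMap,
      Obj.lift_fst, Obj.lift_snd]

theorem IsLefschetzProduct.lefschetz {P : Polarized 𝒱} {F : Y ⟶ P.X}
    (h : IsLefschetzProduct W P Y F) : LefschetzConclusions W Y (ops.pull F P.D) := by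
  obtain ⟨hD, f, g, ι, hι, Q, c, Θ, h⟩ := h.isGood
  have h1 := fr_hardLefschetz h.frY
  have h2 := fr_lefschetzB h.frY
  exact ⟨h1, kunneth_of_lefschetzB h.frY.hD h1 h2, h2⟩

theorem IsLefschetzProduct.hodge {P : Polarized 𝒱} {F : Y ⟶ P.X}
    (h : IsLefschetzProduct W P Y F) (hH : HodgeType W P.X P.D) :
    HodgeConclusions W F (ops.pull F P.D) := by
  obtain ⟨hD, f, g, ι, hι, Q, c, Θ, h⟩ := h.isGood
  have h1 : HodgeType W Y (ops.pull F P.D) →
      HodgeTypeWhere W Y (ops.pull F P.D) (IsKilled W F) :=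
    fun hY j hj z hz _ hp h0 => hY j hj z hz hp h0
  exact ⟨(h.hodge_on hH).1, (h.hodge_on hH).2, ⟨h1, fun hK => (h.hodge hH hK).1⟩,
    fun hY => (h.hodge hH (h1 hY)).2, fun hK => h.hodge hH (hK.kernelPositive _)⟩

/-- If `dim Y` is odd and `Z` has no cohomology in odd degrees, a cycle on `Y × Z` with direct image
zero on `X × Z` has class zero. -/
theorem kernelZero_of_odd {F : Y ⟶ X} {D : X.Cycles} (hf : IsLefschetzMap W F D)
    (hD : X.IsCyc 1 D) (hHL : HardLefschetz W X D) (hodd : Odd Y.dim)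
    (hZ : ∀ i, Odd i → W.gr Z i = ⊥) : KernelZero W (prodMap F (𝟙 Z)) := by
  intro l z hz h0
  rw [IsKilled, W.cl_push] at h0
  apply W.nondeg
  intro y
  refine W.kunneth_induction (p := fun y => W.tr (Y.prod Z) (W.cl (Y.prod Z) z * y) = 0)
    ?_ ?_ y
  · intro a b ha hb
    rw [mul_add, map_add, ha, hb, add_zero]
  intro i j a ha b hb
  by_cases hj : Odd j
  · rw [hZ j hj] at hb
    rw [(Submodule.mem_bot _).1 hb]
    simp
  by_cases hdeg : 2 * l + (i + j) = 2 * (Y.prod Z).dim
  swap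
  · exact W.tr_eq_zero (W.mul_mem (W.cl_mem hz) (W.mul_mem (W.map_mem _ ha) (W.map_mem _ hb)))
      hdeg
  have hne : i ≠ Y.dim := by
    rintro rfl
    rw [Nat.not_odd_iff_even] at hj
    have h1 : Odd (2 * l + (Y.dim + j)) :=
      (hodd.add_even hj).add_even (even_two_mul l) |> fun h => by rwa [add_comm] at h
    rw [hdeg] at h1
    exact (Nat.not_odd_iff_even.2 (even_two_mul _)) h1
  have hex : ∃ x, W.map F x = a := by
    rcases lt_or_gt_of_ne hne with h | h
    · obtain ⟨x, -, hx⟩ := hf.surj i h a ha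
      exact ⟨x, hx⟩
    · by_cases h2 : 2 * Y.dim < i
      · rw [W.gr_eq_bot Y i h2] at ha
        exact ⟨0, by rw [map_zero, (Submodule.mem_bot _).1 ha]⟩
      · obtain ⟨z, hz, hz'⟩ := (hf.hardLefschetz hD hHL (2 * Y.dim - i) (by omega)).2 a
          (by rwa [show 2 * Y.dim - (2 * Y.dim - i) = i by omega])
        obtain ⟨x, -, rfl⟩ := hf.surj (2 * Y.dim - i) (by omega) z hz
        rw [mulLeft_pow_apply, IsLefschetzMap.cl_pull_D, ← map_pow, ← map_mul] at hz'
        exact ⟨_, hz'⟩
  obtain ⟨x, rfl⟩ := hex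
  have h1 : W.map (fst Y Z) (W.map F x) * W.map (snd Y Z) b =
      W.map (prodMap F (𝟙 Z)) (ext W x b) := by
    rw [map_prodMap, W.map_id]
    rfl
  rw [h1, ← W.tr_push, h0, zero_mul, map_zero]

/-- **The conjecture of Hodge type for `Y × Z`, where `Y` has odd dimension and `Z` has no cohomology
in odd degrees.** -/
theorem hodge_odd_even {F : Y ⟶ X} {D : X.Cycles} (hf : IsLefschetzMap W F D)
    (hD : X.IsCyc 1 D) (hHL : HardLefschetz W X D) (hB : LefschetzB W X D) (hodd : Odd Y.dim)
    {DZ : Z.Cycles} (hDZ : Z.IsCyc 1 DZ) (hHLZ : HardLefschetz W Z DZ) (hBZ : LefschetzB W Z DZ)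
    (hZ : ∀ i, Odd i → W.gr Z i = ⊥)
    (hH : HodgeType W (X.prod Z) (ops.pull (fst X Z) D + ops.pull (snd X Z) DZ)) :
    HodgeType W (Y.prod Z) (ops.pull (fst Y Z) (ops.pull F D) + ops.pull (snd Y Z) DZ) ∧
      HomEqNum W (Y.prod Z) := by
  have h1 := hf.isGood hD hHL hB
  have h2 := (IsLefschetzMap.id W Z DZ).isGood hDZ hHLZ hBZ
  obtain ⟨f, g, ι, hι, Q, c, Θ, h1⟩ := h1
  obtain ⟨f', g', ι', hι', Q', c', Θ', h2⟩ := h2
  have h3 := h1.prod h2
  have hK := kernelZero_of_odd hf hD hHL hodd hZ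
  have h4 := h3.hodge hH (hK.kernelPositive _)
  refine ⟨?_, h4.2⟩
  have hcl : W.cl (Y.prod Z) (ops.pull (fst Y Z) (ops.pull F D) +
      ops.pull (snd Y Z) (ops.pull (𝟙 Z) DZ)) =
      W.cl (Y.prod Z) (ops.pull (fst Y Z) (ops.pull F D) + ops.pull (snd Y Z) DZ) := by
    rw [map_add, map_add, W.cl_pull (snd Y Z), W.cl_pull (snd Y Z), W.cl_pull (𝟙 Z), W.map_id]
  have hdp : ∀ i z, W.cl (Y.prod Z) (divPow ops (ops.pull (fst Y Z) (ops.pull F D) +
      ops.pull (snd Y Z) (ops.pull (𝟙 Z) DZ)) i z) =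
      W.cl (Y.prod Z) (divPow ops (ops.pull (fst Y Z) (ops.pull F D) +
        ops.pull (snd Y Z) DZ) i z) := by
    intro i z
    rw [cl_divPow, cl_divPow, hcl]
  intro j hj z hz hp h0
  have h5 := h4.1 j hj z hz (by rw [hdp]; exact hp) h0
  have e1 := divPow_mem (ops := ops) h3.frY.hD ((Y.prod Z).dim - 2 * j) hz
  have hD' : (Y.prod Z).IsCyc 1 (ops.pull (fst Y Z) (ops.pull F D) + ops.pull (snd Y Z) DZ) :=
    SmVar.IsCyc.add (ops.pull_mem _ (ops.pull_mem _ hD)) (ops.pull_mem _ hDZ)
  have e2 := divPow_mem (ops := ops) hD' ((Y.prod Z).dim - 2 * j) hz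
  have m1 := ops.mul_mem hz e1
  have m2 := ops.mul_mem hz e2
  rw [show j + (j + ((Y.prod Z).dim - 2 * j)) = (Y.prod Z).dim by omega] at m1 m2
  have t1 := W.tr_cl m1
  have t2 := W.tr_cl m2
  rw [W.cl_mul, hdp, ← W.cl_mul, t2] at t1
  have t3 : (Y.prod Z).V.degCycle (ops.mul z (divPow ops (ops.pull (fst Y Z) (ops.pull F D) +
      ops.pull (snd Y Z) DZ) ((Y.prod Z).dim - 2 * j) z)) =
      (Y.prod Z).V.degCycle (ops.mul z (divPow ops (ops.pull (fst Y Z) (ops.pull F D) +
      ops.pull (snd Y Z) (ops.pull (𝟙 Z) DZ)) ((Y.prod Z).dim - 2 * j) z)) := by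
    exact_mod_cast t1
  rw [t3]
  exact h5

end Pool.Agent.V7H2.HT
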